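import Pool.Agent.MP_a8995d_an.Defs

namespace Pool.Agent.MP_a8995d_an

variable {X : Type} [NormedAddCommGroup X] [NormedSpace ℂ X]

/-- Topological mixing of all orders, uniformly in the gaps: for nonempty open sets
`U 0, …, U (N - 1)` there is `R` such that for all times `n 0 < ⋯ < n (N - 1)` with gaps at least
`R` some `x` has `S ^ (n i) x ∈ U i` for every `i`. -/
def MixingAllOrders (S : X →L[ℂ] X) : Prop :=
  ∀ (N : ℕ) (U : Fin N → Set X), (∀ i, IsOpen (U i) ∧ (U i).Nonempty) →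
    ∃ R : ℕ, ∀ n : Fin N → ℕ, (∀ i j, i < j → n i + R ≤ n j) → ∃ x, ∀ i, (S ^ n i) x ∈ U i

end Pool.Agent.MP_a8995d_an
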