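import Pool.Agent.MP_a8995d_an.Main
import Pool.Agent.MP_a8995d_an.K9.Defs

/-!
Interpolation at widely separated nodes with a degree that does not depend on the nodes.
-/

namespace Pool.Agent.MP_a8995d_an.K9

open Polynomial Filter Topology Finset

/-- the degree after `m` nodes -/
def dg (d : ℕ) : ℕ → ℕ
  | 0 => d
  | m + 1 => dg d m + (dg d m + 1)

lemma pow_sub_one (u : ℂ) (e : ℕ) : ‖(1 + u) ^ e - 1‖ ≤ e * ‖u‖ * (1 + ‖u‖) ^ e := by
  induction e with
  | zero => simp
  | succ e ih =>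
    have h1 : (1 + u) ^ (e + 1) - 1 = ((1 + u) ^ e - 1) * (1 + u) + u := by ring
    have h2 : ‖1 + u‖ ≤ 1 + ‖u‖ := by simpa using norm_add_le 1 u
    have h3 : 1 ≤ (1 + ‖u‖) ^ (e + 1) := one_le_pow₀ (by linarith [norm_nonneg u])
    have h4 := mul_le_mul ih h2 (norm_nonneg _) (by positivity)
    rw [h1]
    refine (norm_add_le _ _).trans ?_
    rw [norm_mul]
    push_cast
    have h5 := mul_le_mul_of_nonneg_left h3 (norm_nonneg u)
    rw [mul_assoc, ← pow_succ] at h4
    linarith

lemma kill {ι : Type} [DecidableEq ι] (d : ℕ) (H : ℝ) (hH : 0 ≤ H) (m : ℕ) :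
    ∃ C : ℝ, 0 ≤ C ∧ ∀ (R : ℝ) (ν : ι → ℝ) (J : Finset ι), 1 ≤ R → J.card = m →
      (∀ j ∈ J, R ≤ |ν j|) → ∃ L : ℂ[X], L.natDegree + d ≤ dg d m ∧
        (∀ t : ℝ, ‖L.eval (t : ℂ)‖ * (1 + |t|) ^ d ≤ (1 + |t|) ^ dg d m) ∧
        (∀ h : ℝ, |h| ≤ H → ‖L.eval (h : ℂ) - 1‖ ≤ C / R) ∧
        ∀ j ∈ J, ∀ h : ℝ, |h| ≤ H →
          ‖L.eval ((ν j + h : ℝ) : ℂ)‖ * (1 + |ν j + h|) ^ d ≤ C / R := by
  induction m with
  | zero =>
    refine ⟨0, le_rfl, fun R ν J _ hJ _ => ⟨1, by simp [dg], by simp [dg], by simp, ?_⟩⟩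
    rw [card_eq_zero.mp hJ]
    simp
  | succ m ih =>
    obtain ⟨C, hC, ih⟩ := ih
    set e := dg d m + 1 with he
    refine ⟨C * (2 + H) ^ e + e * H * (1 + H) ^ e + (2 + H) ^ dg d m * H ^ e, by positivity,
      fun R ν J hR hJ hν => ?_⟩
    obtain ⟨j₀, hj₀, hmax⟩ := exists_max_image J (fun j => |ν j|) (card_pos.mp (by omega))
    obtain ⟨L, h1, h2, h3, h4⟩ := ih R ν (J.erase j₀) hR (by rw [card_erase_of_mem hj₀]; omega)
      fun j hj => hν j (mem_of_mem_erase hj)
    set b := ν j₀ with hb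
    have hb1 : R ≤ |b| := hν j₀ hj₀
    have hb0 : 0 < |b| := by linarith
    have hbn : (b : ℂ) ≠ 0 := by exact_mod_cast abs_pos.mp hb0
    have hR0 : 0 < R := by linarith
    set F : ℂ[X] := (1 + Polynomial.C (-(1 / (b : ℂ))) * X) ^ e with hF
    have hFe : ∀ t : ℝ, F.eval (t : ℂ) = (1 + -((t : ℂ) / b)) ^ e := by
      intro t
      simp only [hF, eval_pow, eval_add, eval_one, eval_mul, eval_C, eval_X]
      ring
    have hFn : ∀ t c : ℝ, |t| ≤ c * |b| → ‖F.eval (t : ℂ)‖ ≤ (1 + c) ^ e := by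
      intro t c ht
      rw [hFe, norm_pow]
      refine pow_le_pow_left₀ (norm_nonneg _) ((norm_add_le _ _).trans ?_) _
      simp only [norm_one, norm_neg, norm_div, Complex.norm_real, Real.norm_eq_abs]
      rw [← div_le_iff₀ hb0] at ht
      linarith
    have p1 : 0 ≤ C * (2 + H) ^ e / R := by positivity
    have p2 : 0 ≤ e * H * (1 + H) ^ e / R := by positivity
    have p3 : 0 ≤ (2 + H) ^ dg d m * H ^ e / R := by positivity
    refine ⟨L * F, ?_, fun t => ?_, fun h hh => ?_, fun j hj h hh => ?_⟩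
    · have : F.natDegree ≤ e := by
        refine natDegree_pow_le.trans ?_
        have : (1 + Polynomial.C (-(1 / (b : ℂ))) * X : ℂ[X]).natDegree ≤ 1 := by compute_degree
        nlinarith
      have h5 := natDegree_mul_le (p := L) (q := F)
      simp only [dg]
      omega
    · have h5 := hFn t |t| (le_mul_of_one_le_right (abs_nonneg t) (by linarith))
      rw [eval_mul, norm_mul, mul_right_comm, dg, pow_add]
      exact mul_le_mul (h2 t) h5 (norm_nonneg _) (by positivity)
    · have h5 := hFn h (1 + H) (by nlinarith)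
      have h6 : ‖F.eval (h : ℂ) - 1‖ ≤ e * H * (1 + H) ^ e / R := by
        rw [hFe]
        refine (pow_sub_one _ e).trans ?_
        have h7 : ‖-((h : ℂ) / b)‖ ≤ H / R := by
          simp only [norm_neg, norm_div, Complex.norm_real, Real.norm_eq_abs]
          exact div_le_div₀ hH hh hR0 hb1
        have h8 : H / R ≤ H := div_le_self hH hR
        calc _ ≤ e * (H / R) * (1 + H) ^ e := by gcongr; linarith
          _ = _ := by ring
      have h9 : (L * F).eval (h : ℂ) - 1 =
          (L.eval (h : ℂ) - 1) * F.eval (h : ℂ) + (F.eval (h : ℂ) - 1) := by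
        rw [eval_mul]; ring
      have h10 := mul_le_mul (h3 h hh) h5 (norm_nonneg _) (by positivity)
      rw [h9]
      refine (norm_add_le _ _).trans ?_
      rw [norm_mul, add_div, add_div]
      have : C / R * (1 + (1 + H)) ^ e = C * (2 + H) ^ e / R := by ring
      linarith
    · have habs : |ν j + h| ≤ |b| + H := (abs_add_le _ _).trans (add_le_add (hmax j hj) hh)
      rw [eval_mul, norm_mul, mul_right_comm, add_div, add_div]
      by_cases hjj : j = j₀
      · subst hjj
        have h5 : ‖F.eval ((b + h : ℝ) : ℂ)‖ ≤ (H / |b|) ^ e := by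
          rw [hFe, norm_pow]
          refine pow_le_pow_left₀ (norm_nonneg _) ?_ _
          have : 1 + -(((b + h : ℝ) : ℂ) / b) = -(h / b) := by push_cast; field_simp; ring
          rw [this]
          simp only [norm_neg, norm_div, Complex.norm_real, Real.norm_eq_abs]
          gcongr
        have h6 : (1 + |b + h|) ^ dg d m ≤ ((2 + H) * |b|) ^ dg d m :=
          pow_le_pow_left₀ (by positivity) (by nlinarith) _
        have h7 := mul_le_mul ((h2 (b + h)).trans h6) h5 (norm_nonneg _) (by positivity)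
        have h8 : ((2 + H) * |b|) ^ dg d m * (H / |b|) ^ e =
            (2 + H) ^ dg d m * H ^ e / |b| := by
          rw [mul_pow, div_pow, he, pow_succ |b|]
          field_simp
        have h9 : (2 + H) ^ dg d m * H ^ e / |b| ≤ (2 + H) ^ dg d m * H ^ e / R := by gcongr
        linarith
      · have h5 := hFn (ν j + h) (1 + H) (by nlinarith)
        have h6 := mul_le_mul (h4 j (mem_erase.mpr ⟨hjj, hj⟩) h hh) h5 (norm_nonneg _)
          (by positivity)
        have : C / R * (1 + (1 + H)) ^ e = C * (2 + H) ^ e / R := by ring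
        linarith

lemma poly_growth (q : ℂ[X]) (d : ℕ) (hq : q.natDegree ≤ d) :
    ∃ K : ℝ, 0 ≤ K ∧ ∀ t : ℝ, ‖q.eval (t : ℂ)‖ ≤ K * (1 + |t|) ^ d := by
  refine ⟨∑ i ∈ range (d + 1), ‖q.coeff i‖, by positivity, fun t => ?_⟩
  rw [eval_eq_sum_range' (Nat.lt_succ_of_le hq), sum_mul]
  refine (norm_sum_le _ _).trans (sum_le_sum fun i hi => ?_)
  rw [norm_mul, norm_pow, Complex.norm_real, Real.norm_eq_abs]
  refine mul_le_mul_of_nonneg_left ?_ (norm_nonneg _)
  exact (pow_le_pow_left₀ (abs_nonneg _) (by linarith) _).trans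
    (pow_le_pow_right₀ (by linarith [abs_nonneg t]) (Nat.lt_succ_iff.mp (mem_range.mp hi)))

lemma interp_all (N d : ℕ) (q : Fin N → ℂ[X]) (hq : ∀ i, (q i).natDegree ≤ d)
    (n : ℕ → Fin N → ℕ)
    (hn : ∀ (k : ℕ) i j, j ≠ i → (k : ℝ) + 1 ≤ |(n k j : ℝ) - n k i|) :
    ∃ p : ℕ → ℂ[X], (∀ k, (p k).natDegree ≤ dg d (N - 1)) ∧ ∀ l, ∀ h : ℕ, h ≤ dg d (N - 1) →
      Tendsto (fun k => (p k).eval ((n k l : ℂ) + h)) atTop (𝓝 ((q l).eval (h : ℂ))) := by
  obtain ⟨C, hC, hk⟩ := kill (ι := Fin N) d (dg d (N - 1)) (Nat.cast_nonneg _) (N - 1)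
  have h1 := fun (k : ℕ) (i : Fin N) => hk (k + 1) (fun j => (n k j : ℝ) - n k i) (univ.erase i)
    (by linarith [Nat.cast_nonneg (α := ℝ) k]) (by simp) fun j hj => hn k i j (ne_of_mem_erase hj)
  choose L hL1 hL2 hL3 hL4 using h1
  have h0 : Tendsto (fun k : ℕ => C / ((k : ℝ) + 1)) atTop (𝓝 0) :=
    tendsto_const_nhds.div_atTop (tendsto_atTop_add_const_right _ _ tendsto_natCast_atTop_atTop)
  refine ⟨fun k => ∑ i, (q i * L k i).comp (X - Polynomial.C (n k i : ℂ)), fun k => ?_,
    fun l h hh => ?_⟩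
  · refine natDegree_sum_le_of_forall_le _ _ fun i _ => natDegree_comp_le.trans ?_
    rw [natDegree_X_sub_C, mul_one]
    have := natDegree_mul_le (p := q i) (q := L k i)
    have := hq i
    have := hL1 k i
    omega
  · have hh' : |(h : ℝ)| ≤ (dg d (N - 1) : ℝ) := by
      rw [Nat.abs_cast]
      exact_mod_cast hh
    have e : (q l).eval (h : ℂ) = ∑ i, if i = l then (q l).eval (h : ℂ) else 0 := by simp
    rw [e]
    simp only [eval_finsetSum, eval_comp, eval_sub, eval_X, eval_C, eval_mul]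
    refine tendsto_finsetSum _ fun i _ => ?_
    split_ifs with hi
    · subst hi
      simp only [add_sub_cancel_left]
      have : Tendsto (fun k => (L k i).eval (h : ℂ)) atTop (𝓝 1) := by
        rw [tendsto_iff_norm_sub_tendsto_zero]
        exact squeeze_zero (fun _ => norm_nonneg _) (fun k => by simpa using hL3 k i h hh') h0
      simpa using this.const_mul ((q i).eval (h : ℂ))
    · obtain ⟨K, hK, hg⟩ := poly_growth (q i) d (hq i)
      rw [tendsto_zero_iff_norm_tendsto_zero]
      refine squeeze_zero (fun _ => norm_nonneg _) (fun k => ?_) (by simpa using h0.const_mul K)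
      have h2 := hL4 k i l (mem_erase.mpr ⟨Ne.symm hi, mem_univ _⟩) h hh'
      have h3 := hg ((n k l : ℝ) - n k i + h)
      have e2 : (n k l : ℂ) + h - n k i = (((n k l : ℝ) - n k i + h : ℝ) : ℂ) := by
        push_cast; ring
      rw [e2, norm_mul]
      calc _ ≤ _ := mul_le_mul_of_nonneg_right h3 (norm_nonneg _)
        _ ≤ K * (C / ((k : ℝ) + 1)) := by
          rw [mul_assoc, mul_comm (_ ^ d)]
          exact mul_le_mul_of_nonneg_left h2 hK

lemma le_dg (d m : ℕ) : d ≤ dg d m := by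
  induction m with
  | zero => exact le_rfl
  | succ m ih => simp only [dg]; omega

theorem approx_all {E : Type} [NormedAddCommGroup E] [NormedSpace ℂ E] (T : E →L[ℂ] E)
    (f : ℕ → E) (h0 : T (f 0) = 0) (hs : ∀ r, T (f (r + 1)) = f r) (N d : ℕ)
    (a : Fin N → ℕ → ℂ) (n : ℕ → Fin N → ℕ)
    (hn : ∀ (k : ℕ) i j, j ≠ i → (k : ℝ) + 1 ≤ |(n k j : ℝ) - n k i|) :
    ∃ x : ℕ → E, ∀ l, Tendsto (fun k => ((1 + T) ^ n k l) (x k)) atTop
      (𝓝 (∑ r ∈ range (d + 1), a l r • f r)) := by
  obtain ⟨p, hp, hlim⟩ := interp_all N d (fun i => newton (a i) d)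
    (fun i => newton_natDegree _ _) n hn
  set M := dg d (N - 1) + 1 with hM
  refine ⟨fun k => V f M (p k).eval 0, fun l => ?_⟩
  have hz : ∀ k, (fwdDiff 1)^[M] (p k).eval = 0 := fun k =>
    Polynomial.fwdDiff_iter_eq_zero_of_degree_lt (Nat.lt_succ_of_le (hp k))
  simp only [V_pow T f h0 hs M _ (hz _)]
  have e : ∑ r ∈ range (d + 1), a l r • f r = V f M (newton (a l) d).eval 0 := by
    simp only [V, newton_diff, ite_smul, zero_smul]
    rw [← sum_filter]
    congr 1
    ext r
    simp only [mem_range, mem_filter]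
    have := le_dg d (N - 1)
    omega
  rw [e]
  refine tendsto_finsetSum _ fun r hr => Tendsto.smul_const ?_ _
  simp only [fwdDiff_iter_eq_sum_shift]
  refine tendsto_finsetSum _ fun h hh => Tendsto.const_smul ?_ _
  have := mem_range.mp hr
  have := mem_range.mp hh
  simpa using hlim l h (by omega)

theorem mixing_all {E : Type} [NormedAddCommGroup E] [NormedSpace ℂ E] (e : ℕ → E)
    (hd : Dense (Submodule.span ℂ (Set.range e) : Set E)) (w : ℕ → ℝ)
    (hw : ∀ n, 1 ≤ n → 0 < w n) (T : E →L[ℂ] E) (hT : IsBackwardShift e w T) :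
    MixingAllOrders (1 + T) := by
  obtain ⟨h0, hs⟩ := hT
  intro N U hU
  choose u hu hu' using fun i => hd.inter_open_nonempty (U i) (hU i).1 (hU i).2
  choose c hc using fun i => Finsupp.mem_span_range_iff_exists_finsupp.mp (hu' i)
  let W : ℕ → ℂ := fun r => ∏ i ∈ range r, (w (i + 1) : ℂ)
  have hW : ∀ r, W r ≠ 0 := fun r => prod_ne_zero_iff.mpr fun i _ => by
    exact_mod_cast (hw (i + 1) (by omega)).ne'
  let f : ℕ → E := fun r => (W r)⁻¹ • e r
  have hf0 : T (f 0) = 0 := by simp [f, h0]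
  have hfs : ∀ r, T (f (r + 1)) = f r := by
    intro r
    have h1 : (w (r + 1) : ℂ) ≠ 0 := by exact_mod_cast (hw (r + 1) (by omega)).ne'
    have h2 := hW r
    simp only [f, map_smul, hs, smul_smul, W, prod_range_succ] at h2 ⊢
    congr 1
    field_simp
  set d := univ.sup fun i => (c i).support.sup id with hd'
  by_contra hcon
  push Not at hcon
  choose n hn1 hn2 using fun k => hcon (k + 1)
  obtain ⟨x, hx⟩ := approx_all T f hf0 hfs N d (fun i r => W r * c i r) n fun k i j hij => by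
    rcases lt_or_gt_of_ne hij with h | h
    · have : (n k j : ℝ) + (k + 1) ≤ n k i := by exact_mod_cast hn1 k j i h
      exact le_abs.mpr (Or.inr (by linarith))
    · have : (n k i : ℝ) + (k + 1) ≤ n k j := by exact_mod_cast hn1 k i j h
      exact le_abs.mpr (Or.inl (by linarith))
  have e1 : ∀ l, ∑ r ∈ range (d + 1), (W r * c l r) • f r = u l := by
    intro l
    rw [← hc l, Finsupp.sum_of_support_subset (s := range (d + 1)) _ (fun r hr => ?_) _ (by simp)]
    · refine sum_congr rfl fun r _ => ?_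
      have h2 := hW r
      simp only [f, smul_smul]
      congr 1
      field_simp
    · exact mem_range.mpr (Nat.lt_succ_of_le ((le_sup (f := id) hr).trans
        (le_sup (f := fun i => (c i).support.sup id) (mem_univ l))))
  simp only [e1] at hx
  obtain ⟨k, hk⟩ := (eventually_all.mpr fun i =>
    (hx i).eventually ((hU i).1.mem_nhds (hu i))).exists
  obtain ⟨i, hi⟩ := hn2 k (x k)
  exact hi (hk i)

/-- The canonical basis of the Hilbert space of square summable sequences has dense span. -/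
theorem dense_basisVec : Dense (Submodule.span ℂ (Set.range basisVec) : Set L2) := by
  intro u
  refine mem_closure_of_tendsto (lp.hasSum_single (p := 2) (by simp) u)
    (Eventually.of_forall fun s => Submodule.sum_mem _ fun i _ => ?_)
  have : lp.single 2 i (u i) = u i • basisVec i := by
    rw [basisVec, ← lp.single_smul]
    simp
  rw [this]
  exact Submodule.smul_mem _ _ (Submodule.subset_span ⟨i, rfl⟩)

/-- Mixing of all orders contains topological multiple recurrence. -/
theorem multiplyRecurrent_of_mixingAllOrders {E : Type} [NormedAddCommGroup E] [NormedSpace ℂ E]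
    {S : E →L[ℂ] E} (h : MixingAllOrders S) : MultiplyRecurrent S := by
  intro U hU hne N _
  obtain ⟨R, hR⟩ := h (N + 1) (fun _ => U) fun _ => ⟨hU, hne⟩
  obtain ⟨x, hx⟩ := hR (fun i => i * (R + 1)) fun i j hij => by
    have : (i : ℕ) + 1 ≤ j := hij
    nlinarith
  exact ⟨R + 1, by omega, x, Set.mem_iInter₂.mpr fun j hj => hx ⟨j, mem_range.mp hj⟩⟩

/-- The question of the problem file as a special case. -/
theorem q1 (w : ℕ → ℝ) (hw : ∀ n, 1 ≤ n → 0 < w n) (T : L2 →L[ℂ] L2)
    (hT : IsBackwardShift basisVec w T) : MultiplyRecurrent (1 + T) :=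
  multiplyRecurrent_of_mixingAllOrders (mixing_all basisVec dense_basisVec w hw T hT)

end Pool.Agent.MP_a8995d_an.K9
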