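import Pool.Agent.MP_a8995d_an.K9.Defs2

/-!
The frequent hypercyclicity criterion for operators with a dense set of homoclinic points.
-/

namespace Pool.Agent.MP_a8995d_an.K9

open Finset Filter Topology

/-- positions of stacked intervals whose half lengths follow the ruler sequence -/
def pos (k : ℕ) : ℕ := 2 * ∑ i ∈ range k, (padicValNat 2 (i + 1) + 1) + (padicValNat 2 (k + 1) + 1)

lemma ruler_sum (k : ℕ) : ∑ i ∈ range k, (padicValNat 2 (i + 1) + 1) ≤ 2 * k := by
  have h1 : ∑ i ∈ range k, padicValNat 2 (i + 1) = padicValNat 2 k.factorial := by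
    induction k with
    | zero => simp
    | succ k ih =>
      rw [sum_range_succ, ih, Nat.factorial_succ,
        padicValNat.mul (Nat.succ_ne_zero k) k.factorial_ne_zero, add_comm]
  have h2 := sub_one_mul_padicValNat_factorial (p := 2) k
  rw [sum_add_distrib, h1]
  simp only [sum_const, card_range, smul_eq_mul, mul_one]
  omega

lemma pos_le (k : ℕ) : pos k ≤ 4 * (k + 1) := by
  have := ruler_sum (k + 1)
  rw [sum_range_succ] at this
  unfold pos
  omega

lemma pos_sep {k k' : ℕ} (h : k < k') :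
    pos k + (padicValNat 2 (k + 1) + 1) + (padicValNat 2 (k' + 1) + 1) ≤ pos k' := by
  have := sum_le_sum_of_subset (f := fun i => padicValNat 2 (i + 1) + 1)
    (range_mono (Nat.succ_le_of_lt h))
  rw [sum_range_succ] at this
  unfold pos
  omega

lemma ruler_eq (q t : ℕ) : padicValNat 2 (2 ^ q * (2 * t + 1) - 1 + 1) = q := by
  have h : 0 < 2 ^ q * (2 * t + 1) := by positivity
  rw [Nat.sub_add_cancel h, padicValNat.mul (by positivity) (by omega), padicValNat.prime_pow,
    padicValNat.eq_zero_of_not_dvd (by omega), add_zero]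

/-- separated sequences of positive density -/
lemma separated (q : ℕ → ℕ) (hq : Function.Injective q) : ∃ a : ℕ × ℕ → ℕ,
    (∀ i, q i.1 < a i) ∧ (∀ i, a i < 2 ^ (q i.1 + 3) * (i.2 + 1)) ∧
      ∀ i j, i ≠ j → (q i.1 : ℤ) < |(a i : ℤ) - a j| ∧ (q j.1 : ℤ) < |(a i : ℤ) - a j| := by
  refine ⟨fun i => pos (2 ^ q i.1 * (2 * i.2 + 1) - 1), fun i => ?_, fun i => ?_, fun i j hij => ?_⟩
  · simp only [pos, ruler_eq]
    omega
  · have h : 0 < 2 ^ q i.1 * (2 * i.2 + 1) := by positivity
    refine (pos_le _).trans_lt ?_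
    rw [Nat.sub_add_cancel h, pow_add]
    nlinarith [Nat.two_pow_pos (q i.1)]
  · have hne : 2 ^ q i.1 * (2 * i.2 + 1) - 1 ≠ 2 ^ q j.1 * (2 * j.2 + 1) - 1 := by
      intro h
      have h1 : q i.1 = q j.1 := by rw [← ruler_eq (q i.1) i.2, h, ruler_eq]
      have h2 : 0 < 2 ^ q i.1 * (2 * i.2 + 1) := by positivity
      have h3 : 0 < 2 ^ q j.1 * (2 * j.2 + 1) := by positivity
      have h4 : 2 ^ q i.1 * (2 * i.2 + 1) = 2 ^ q i.1 * (2 * j.2 + 1) := by
        rw [← h1] at h h3
        omega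
      have h5 := Nat.eq_of_mul_eq_mul_left (Nat.two_pow_pos _) h4
      exact hij (Prod.ext (hq h1) (by omega))
    beta_reduce
    rcases lt_or_gt_of_ne hne with h | h
    · have := pos_sep h
      rw [ruler_eq, ruler_eq] at this
      constructor <;> exact lt_abs.mpr (Or.inr (by omega))
    · have := pos_sep h
      rw [ruler_eq, ruler_eq] at this
      constructor <;> exact lt_abs.mpr (Or.inl (by omega))

lemma sum_bound (g : ℕ × ℕ → ℝ) (hg : 0 ≤ g) (ε : ℝ) (hε : 0 ≤ ε)
    (h : ∀ (l : ℕ) (G : Finset ℕ), ∑ t ∈ G, g (l, t) ≤ ε * (1 / 2) ^ l) (F : Finset (ℕ × ℕ)) :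
    ∑ i ∈ F, g i ≤ ε * 2 := by
  refine (sum_le_sum_of_subset_of_nonneg (subset_product (s := F)) fun i _ _ => hg i).trans ?_
  rw [sum_product]
  refine (sum_le_sum fun l _ => h l _).trans ?_
  rw [← mul_sum]
  refine mul_le_mul_of_nonneg_left ?_ hε
  exact (summable_geometric_two.sum_le_tsum _ fun _ _ => by positivity).trans tsum_geometric_two.le

lemma tail (g : ℤ → ℝ) (hg : Summable g) (ε : ℝ) (hε : 0 < ε) :
    ∀ᶠ R : ℕ in atTop, ∀ G : Finset ℤ, (∀ n ∈ G, (R : ℤ) < |n|) → ∑ n ∈ G, g n ≤ ε := by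
  obtain ⟨s, hs⟩ := summable_iff_vanishing_norm.mp hg ε hε
  filter_upwards [eventually_ge_atTop (s.sup Int.natAbs)] with R hR G hG
  refine (le_abs_self _).trans (hs G (disjoint_left.mpr fun n hn hns => ?_)).le
  have h1 := hG n hn
  have h2 := (le_sup (f := Int.natAbs) hns).trans hR
  rw [Int.abs_eq_natAbs] at h1
  omega

variable {E : Type} [NormedAddCommGroup E] [NormedSpace ℂ E]

/-- the points on an absolutely summable two-sided orbit -/
def homo (S : E →L[ℂ] E) : Submodule ℂ E where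
  carrier := {y | ∃ o : ℤ → E, o 0 = y ∧ (∀ n, S (o n) = o (n + 1)) ∧ Summable fun n => ‖o n‖}
  zero_mem' := ⟨0, rfl, by simp, by simp⟩
  add_mem' := by
    rintro _ _ ⟨o, rfl, h1, h2⟩ ⟨o', rfl, h3, h4⟩
    exact ⟨o + o', rfl, by simp [h1, h3],
      (h2.add h4).of_nonneg_of_le (fun _ => norm_nonneg _) fun _ => norm_add_le _ _⟩
  smul_mem' := by
    rintro c _ ⟨o, rfl, h1, h2⟩
    exact ⟨c • o, rfl, by simp [h1], by simpa [norm_smul] using h2.mul_left ‖c‖⟩

theorem criterion [CompleteSpace E] [TopologicalSpace.SeparableSpace E] (S : E →L[ℂ] E)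
    (hd : Dense (homo S : Set E)) : FreqHypercyclic S := by
  classical
  obtain ⟨D, hD⟩ := TopologicalSpace.exists_dense_seq (homo S)
  choose o ho0 ho1 ho2 using fun l : ℕ => (D (Nat.unpair l).1).2
  have hpow : ∀ l (m : ℕ) n, (S ^ m) (o l n) = o l (n + m) := by
    intro l m n
    induction m with
    | zero => simp
    | succ m ih => rw [pow_succ', mul_apply_eq_comp, ih, ho1, Nat.cast_succ, add_assoc]
  obtain ⟨q, hq, hq2⟩ := extraction_forall_of_eventually (P := fun l R => ∀ j ∈ range (l + 1),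
    ∀ G : Finset ℤ, (∀ n ∈ G, (R : ℤ) < |n|) → ∑ n ∈ G, ‖o j n‖ ≤ (1 / 2) ^ l * (1 / 2) ^ j)
    fun l => (eventually_all_finset _).mpr fun j _ => tail _ (ho2 j) _ (by positivity)
  obtain ⟨a, ha1, ha2, ha3⟩ := separated q hq.injective
  have hinj : Function.Injective a := fun i j h => by
    by_contra hij
    have := (ha3 i j hij).1
    rw [h, sub_self, abs_zero] at this
    omega
  have key : ∀ (m : ℤ) (l L : ℕ) (G : Finset ℕ), l ≤ L →
      (∀ t ∈ G, (q L : ℤ) < |m - a (l, t)|) →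
        ∑ t ∈ G, ‖o l (m - a (l, t))‖ ≤ (1 / 2) ^ L * (1 / 2) ^ l := by
    intro m l L G hl hG
    rw [← sum_image (g := fun t => m - a (l, t)) (f := fun n => ‖o l n‖) fun t _ t' _ h => by
      have : a (l, t) = a (l, t') := by
        simp only at h
        omega
      exact (Prod.ext_iff.mp (hinj this)).2]
    refine hq2 L l (mem_range.mpr (by omega)) _ fun n hn => ?_
    obtain ⟨t, ht, rfl⟩ := mem_image.mp hn
    exact hG t ht
  have hsum : Summable fun i : ℕ × ℕ => o i.1 (0 - a i) := by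
    refine Summable.of_norm (summable_of_sum_le (fun _ => norm_nonneg _)
      (sum_bound _ (fun _ => norm_nonneg _) 1 zero_le_one fun l G => ?_))
    refine (key 0 l l G le_rfl fun t _ => ?_).trans ?_
    · have := ha1 (l, t)
      exact lt_abs.mpr (Or.inr (by simp only at this; omega))
    · exact mul_le_mul_of_nonneg_right (pow_le_one₀ (by norm_num) (by norm_num)) (by positivity)
  set x := ∑' i : ℕ × ℕ, o i.1 (0 - a i) with hx
  have hclose : ∀ i₀ : ℕ × ℕ, ‖(S ^ a i₀) x - o i₀.1 0‖ ≤ (1 / 2) ^ i₀.1 * 2 := by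
    intro i₀
    have h1 := (S ^ a i₀).summable hsum
    have h2 : ∀ i : ℕ × ℕ, (S ^ a i₀) (o i.1 (0 - a i)) = o i.1 (a i₀ - a i) := fun i => by
      rw [hpow]
      congr 1
      ring
    rw [hx, (S ^ a i₀).map_tsum hsum, h1.tsum_eq_add_tsum_ite i₀]
    simp only [h2, sub_self, add_sub_cancel_left]
    have h3 := sum_bound (fun i => ‖if i = i₀ then 0 else o i.1 (a i₀ - a i)‖)
      (fun _ => norm_nonneg _) ((1 / 2) ^ i₀.1) (by positivity) fun l G => by
        have h4 := key (a i₀) l (max l i₀.1) (G.filter fun t => (l, t) ≠ i₀) (le_max_left _ _)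
          fun t ht => by
            have := ha3 i₀ (l, t) (mem_filter.mp ht).2.symm
            rcases max_choice l i₀.1 with h | h <;> rw [h]
            exacts [this.2, this.1]
        rw [sum_filter] at h4
        refine le_trans (le_of_eq (sum_congr rfl fun t _ => ?_)) (h4.trans ?_)
        · by_cases h : (l, t) = i₀ <;> simp [h]
        · exact mul_le_mul_of_nonneg_right
            (pow_le_pow_of_le_one (by norm_num) (by norm_num) (le_max_right _ _)) (by positivity)
    exact (norm_tsum_le_tsum_norm (summable_of_sum_le (fun _ => norm_nonneg _) h3)).trans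
      (Real.tsum_le_of_sum_le (fun _ => norm_nonneg _) h3)
  refine ⟨x, fun U hU hne => ?_⟩
  obtain ⟨y, hyU, hy⟩ := hd.inter_open_nonempty U hU hne
  obtain ⟨i, hi⟩ := hD.exists_mem_open (hU.preimage continuous_subtype_val) ⟨⟨y, hy⟩, hyU⟩
  obtain ⟨ρ, hρ, hball⟩ := Metric.isOpen_iff.mp hU _ hi
  obtain ⟨j, hj⟩ := exists_pow_lt_of_lt_one (half_pos hρ) (show (1 / 2 : ℝ) < 1 by norm_num)
  set l := Nat.pair i j with hl
  have hmem : ∀ t, (S ^ a (l, t)) x ∈ U := fun t => by
    refine hball ?_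
    have h1 := hclose (l, t)
    simp only [ho0, hl, Nat.unpair_pair] at h1
    have h2 : (1 / 2 : ℝ) ^ Nat.pair i j ≤ (1 / 2) ^ j :=
      pow_le_pow_of_le_one (by norm_num) (by norm_num) (Nat.right_le_pair i j)
    rw [mem_ball_iff_norm]
    linarith
  set P := 2 ^ (q l + 3) with hP
  have hP0 : 0 < P := by positivity
  have hPr : (0 : ℝ) < P := by exact_mod_cast hP0
  refine ⟨1 / (2 * P), by positivity, (eventually_ge_atTop P).mono fun N hN => ?_⟩
  have h1 : N / P ≤ ({n | (S ^ n) x ∈ U} ∩ Set.Iio N).ncard := by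
    have h2 : ((range (N / P)).image fun t => a (l, t)).card = N / P := by
      rw [card_image_of_injective _ fun t t' h => (Prod.ext_iff.mp (hinj h)).2, card_range]
    rw [← h2, ← Set.ncard_coe_finset]
    refine Set.ncard_le_ncard (fun n hn => ?_) ((Set.finite_Iio N).inter_of_right _)
    obtain ⟨t, ht, rfl⟩ := mem_image.mp hn
    refine ⟨hmem t, (ha2 (l, t)).trans_le ?_⟩
    exact (Nat.mul_le_mul_left _ (mem_range.mp ht)).trans (Nat.mul_div_le N P)
  have h3 : N ≤ 2 * P * (N / P) := by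
    have h4 := Nat.lt_div_mul_add (a := N) hP0
    have h5 : 1 ≤ N / P := (Nat.one_le_div_iff hP0).mpr hN
    nlinarith
  have h6 : (N : ℝ) ≤ 2 * P * (N / P : ℕ) := by exact_mod_cast h3
  have h7 : ((N / P : ℕ) : ℝ) ≤ _ := Nat.cast_le.mpr h1
  rw [one_div, inv_mul_le_iff₀ (by positivity)]
  exact h6.trans (mul_le_mul_of_nonneg_left h7 (by positivity))

end Pool.Agent.MP_a8995d_an.K9
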