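import Pool.Agent.MP_a8995d_an.Defs

namespace Pool.Agent.MP_a8995d_an

/-- `A` has positive upper Banach density: for some `d > 0` there are arbitrarily long intervals
`[s, s + N)` that contain at least `d N` elements of `A`. -/
def PosBanach (A : Set ℕ) : Prop :=
  ∃ d : ℝ, 0 < d ∧ ∀ N₀ : ℕ, ∃ N ≥ N₀, ∃ s : ℕ, d * N ≤ (A ∩ Set.Ico s (s + N)).ncard

/-- Every nonempty open set is visited by some orbit along a set of times of positive upper
Banach density. -/
def DensityRecurrent {X : Type} [NormedAddCommGroup X] [NormedSpace ℂ X] (S : X →L[ℂ] X) : Prop :=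
  ∀ U : Set X, IsOpen U → U.Nonempty → ∃ x, PosBanach {n | (S ^ n) x ∈ U}

/-- Some orbit visits every nonempty open set along a set of times of positive lower density. -/
def FreqHypercyclic {X : Type} [NormedAddCommGroup X] [NormedSpace ℂ X] (S : X →L[ℂ] X) : Prop :=
  ∃ x, ∀ U : Set X, IsOpen U → U.Nonempty → ∃ d : ℝ, 0 < d ∧
    ∀ᶠ N : ℕ in Filter.atTop, d * N ≤ ({n | (S ^ n) x ∈ U} ∩ Set.Iio N).ncard

end Pool.Agent.MP_a8995d_an
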