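import Pool.Agent.MP_a8995d_an.K9.Crit

/-!
Homoclinic points from an analytic field of unimodular eigenvectors.
-/

namespace Pool.Agent.MP_a8995d_an.K9

open Filter Topology Complex Set MeasureTheory

variable {E : Type} [NormedAddCommGroup E] [NormedSpace ℂ E] [CompleteSpace E]

lemma ibp (G G' : ℝ → E) (a b : ℝ) (hG : ∀ x ∈ uIcc a b, HasDerivAt G (G' x) x)
    (hc : ContinuousOn G' (uIcc a b)) (ha : G a = 0) (hb : G b = 0) (n : ℤ) :
    ‖∫ t in a..b, exp (n * I * t) • G' t‖ = |(n : ℝ)| * ‖∫ t in a..b, exp (n * I * t) • G t‖ := by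
  have h1 : ∀ x ∈ uIcc a b,
      HasDerivAt (fun t : ℝ => exp (n * I * t)) (n * I * exp (n * I * x)) x := fun x _ => by
    have := ((hasDerivAt_id (x : ℂ)).const_mul (n * I)).cexp.comp_ofReal
    simpa [mul_comm] using this
  rw [intervalIntegral.integral_smul_deriv_eq_deriv_smul h1 hG
    (Continuous.intervalIntegrable (by fun_prop) _ _) hc.intervalIntegrable, ha, hb]
  simp only [smul_zero, sub_self, zero_sub, norm_neg, mul_smul, intervalIntegral.integral_smul,
    norm_smul, norm_I, one_mul, norm_intCast]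

lemma homo_int (S : E →L[ℂ] E) (V : ℝ → E) (a b : ℝ) (hab : a ≤ b)
    (hV : ∀ t ∈ uIcc a b, AnalyticAt ℝ V t) (hS : ∀ t ∈ uIcc a b, S (V t) = exp (t * I) • V t) :
    ∫ t in a..b, ((t - a) * (b - t)) ^ 2 • V t ∈ homo S := by
  set G : ℝ → E := fun t => ((t - a) * (b - t)) ^ 2 • V t with hG
  have h0 : ∀ t ∈ uIcc a b, AnalyticAt ℝ G t := fun t ht =>
    AnalyticAt.smul (f := fun t : ℝ => ((t - a) * (b - t)) ^ 2) (by fun_prop) (hV t ht)
  have h1 : ∀ t ∈ uIcc a b, AnalyticAt ℝ (deriv G) t := fun t ht => (h0 t ht).deriv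
  have h2 : ∀ t ∈ uIcc a b, AnalyticAt ℝ (deriv (deriv G)) t := fun t ht => (h1 t ht).deriv
  have hz : ∀ t ∈ uIcc a b, (t - a) * (b - t) = 0 → deriv G t = 0 := fun t ht h => by
    have h3 : DifferentiableAt ℝ (fun t : ℝ => (t - a) * (b - t)) t := by fun_prop
    have h4 := ((h3.hasDerivAt.pow 2).smul (hV t ht).differentiableAt.hasDerivAt).deriv
    simp only [Pi.pow_apply, h] at h4
    exact h4.trans (by simp)
  have hc : ∀ {F : ℝ → E}, (∀ t ∈ uIcc a b, AnalyticAt ℝ F t) → ContinuousOn F (uIcc a b) :=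
    fun h t ht => (h t ht).continuousAt.continuousWithinAt
  have hint : ∀ {F : ℝ → E}, (∀ t ∈ uIcc a b, AnalyticAt ℝ F t) → ∀ n : ℤ,
      IntervalIntegrable (fun t : ℝ => exp (n * I * t) • F t) volume a b := fun h n =>
    (ContinuousOn.smul (Continuous.continuousOn (by fun_prop)) (hc h)).intervalIntegrable
  refine ⟨fun n => ∫ t in a..b, exp (n * I * t) • G t, by simp, fun n => ?_, ?_⟩
  · rw [← S.intervalIntegral_comp_comm (hint h0 n)]
    refine intervalIntegral.integral_congr fun t ht => ?_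
    simp only [hG, S.map_smul_of_tower, hS t ht]
    rw [smul_comm _ (exp (t * I)), smul_smul, ← exp_add]
    congr 2
    push_cast
    ring
  · refine Summable.of_norm_bounded_eventually
      (g := fun n : ℤ => (∫ t in a..b, ‖deriv (deriv G) t‖) * (1 / (n : ℝ) ^ 2))
      ((Real.summable_one_div_int_pow.mpr one_lt_two).mul_left _)
      ((eventually_cofinite_ne 0).mono fun n hn => ?_)
    have h3 := ibp G _ a b (fun t ht => (h0 t ht).differentiableAt.hasDerivAt) (hc h1)
      (by simp [hG]) (by simp [hG]) n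
    have h4 := ibp (deriv G) _ a b (fun t ht => (h1 t ht).differentiableAt.hasDerivAt) (hc h2)
      (hz a left_mem_uIcc (by simp)) (hz b right_mem_uIcc (by simp)) n
    have h5 := intervalIntegral.norm_integral_le_integral_norm (μ := volume)
      (f := fun t : ℝ => exp (n * I * t) • deriv (deriv G) t) hab
    have h6 : ∀ t : ℝ, ‖exp (n * I * t)‖ = 1 := fun t => by simp [norm_exp]
    simp only [norm_smul, h6, one_mul] at h5
    rw [h4, h3, ← mul_assoc, abs_mul_abs_self] at h5
    have h7 : (n : ℝ) ≠ 0 := by exact_mod_cast hn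
    rw [norm_norm, mul_one_div, le_div_iff₀ (by positivity)]
    linarith

lemma mem_closure_homo (S : E →L[ℂ] E) (V : ℝ → E) (t₀ : ℝ)
    (hV : ∀ᶠ t in 𝓝 t₀, AnalyticAt ℝ V t ∧ S (V t) = exp (t * I) • V t) :
    V t₀ ∈ closure (homo S : Set E) := by
  refine Metric.mem_closure_iff.mpr fun ε hε => ?_
  have h1 := hV.and (hV.self_of_nhds.1.continuousAt.eventually
    (Metric.ball_mem_nhds _ (half_pos hε)))
  obtain ⟨δ, hδ, h2⟩ := Metric.eventually_nhds_iff.mp h1
  set b := t₀ + δ / 2 with hb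
  have hab : t₀ < b := by linarith
  have h3 := fun t (ht : t ∈ uIcc t₀ b) => @h2 t (by
    rw [uIcc_of_le hab.le] at ht
    rw [Real.dist_eq, abs_lt]
    constructor <;> linarith [ht.1, ht.2])
  have h4 := homo_int S V t₀ b hab.le (fun t ht => (h3 t ht).1.1) fun t ht => (h3 t ht).1.2
  set h : ℝ → ℝ := fun t => ((t - t₀) * (b - t)) ^ 2 with hh
  have hhc : Continuous h := by fun_prop
  have hJ : 0 < ∫ t in t₀..b, h t := intervalIntegral.intervalIntegral_pos_of_pos_on
    (hhc.intervalIntegrable _ _)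
    (fun t ht => pow_pos (mul_pos (sub_pos.mpr ht.1) (sub_pos.mpr ht.2)) 2) hab
  set J := ∫ t in t₀..b, h t with hJd
  have hVc : ContinuousOn V (uIcc t₀ b) :=
    fun t ht => (h3 t ht).1.1.continuousAt.continuousWithinAt
  refine ⟨J⁻¹ • ∫ t in t₀..b, h t • V t, (homo S).smul_of_tower_mem _ h4, ?_⟩
  have e : (∫ t in t₀..b, h t • V t) - J • V t₀ = ∫ t in t₀..b, h t • (V t - V t₀) := by
    simp only [smul_sub]
    rw [hJd, ← intervalIntegral.integral_smul_const]
    exact (intervalIntegral.integral_sub (hhc.continuousOn.smul hVc).intervalIntegrable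
      ((hhc.smul continuous_const).intervalIntegrable _ _)).symm
  have h5 : ‖∫ t in t₀..b, h t • (V t - V t₀)‖ ≤ ∫ t in t₀..b, h t * (ε / 2) := by
    refine intervalIntegral.norm_integral_le_of_norm_le hab.le
      (Eventually.of_forall fun t ht => ?_) ((hhc.mul continuous_const).intervalIntegrable _ _)
    rw [norm_smul, Real.norm_of_nonneg (sq_nonneg _)]
    refine mul_le_mul_of_nonneg_left ?_ (sq_nonneg _)
    have := (h3 t (by rw [uIcc_of_le hab.le]; exact Ioc_subset_Icc_self ht)).2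
    exact (mem_ball_iff_norm.mp this).le
  rw [intervalIntegral.integral_mul_const, ← e] at h5
  have e2 : (J⁻¹ • ∫ t in t₀..b, h t • V t) - V t₀ =
      J⁻¹ • ((∫ t in t₀..b, h t • V t) - J • V t₀) := by
    rw [smul_sub, inv_smul_smul₀ hJ.ne']
  rw [dist_comm, dist_eq_norm, e2, norm_smul, Real.norm_of_nonneg (inv_pos.mpr hJ).le,
    inv_mul_lt_iff₀ hJ]
  nlinarith

end Pool.Agent.MP_a8995d_an.K9
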