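import Pool.Agent.MP_a8995d_an.K9.Rolle

/-!
If a functional is killed fast by a subsequence of the powers of `B`, then the orbits of
`lam + B` cross a level with Banach density zero.
-/

namespace Pool.Agent.MP_a8995d_an.K9

open Finset Complex Filter Topology

lemma four (w : ℂ) : ∃ β ∈ ({1, -1, I, -I} : Finset ℂ), ‖w‖ / 2 ≤ (β * w).re := by
  have h := Complex.norm_le_abs_re_add_abs_im w
  rcases le_total |w.re| |w.im| with h1 | h1
  · rcases le_total 0 w.im with h2 | h2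
    · exact ⟨-I, by simp, by rw [abs_of_nonneg h2] at h h1; simp; linarith⟩
    · exact ⟨I, by simp, by rw [abs_of_nonpos h2] at h h1; simp; linarith⟩
  · rcases le_total 0 w.re with h2 | h2
    · exact ⟨1, by simp, by rw [abs_of_nonneg h2] at h h1; simp; linarith⟩
    · exact ⟨-1, by simp, by rw [abs_of_nonpos h2] at h h1; simp; linarith⟩

lemma four_norm {β : ℂ} (h : β ∈ ({1, -1, I, -I} : Finset ℂ)) : ‖β‖ = 1 := by
  simp only [mem_insert, mem_singleton] at h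
  rcases h with rfl | rfl | rfl | rfl <;> simp

lemma slow_sparse (Q : ℕ) (hQ : 20 ≤ Q) (Γ : ℂ) (hΓ : Γ ≠ 0) (n j : ℕ)
    (h1 : |(Γ * exp (((1 / Q : ℝ) : ℂ) * I) ^ n).re| ≤ 2 * (1 / Q) * ‖Γ‖)
    (h2 : |(Γ * exp (((1 / Q : ℝ) : ℂ) * I) ^ (n + j)).re| ≤ 2 * (1 / Q) * ‖Γ‖) (hj : j < Q) :
    j < 7 := by
  set θ : ℝ := 1 / Q with hθ
  have hQ0 : (20 : ℝ) ≤ Q := by exact_mod_cast hQ
  have hθ0 : 0 < θ := by positivity
  have hθ1 : θ ≤ 1 / 20 := one_div_le_one_div_of_le (by norm_num) hQ0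
  by_contra hc
  have hj7 : (7 : ℝ) ≤ j := by exact_mod_cast not_lt.mp hc
  have hjQ : (j : ℝ) * θ ≤ 1 := by
    rw [hθ, mul_one_div, div_le_one (by linarith)]
    exact_mod_cast hj.le
  set p := Γ * exp ((θ : ℂ) * I) ^ n with hp
  have hpn : ‖p‖ = ‖Γ‖ := by simp [hp, norm_exp_ofReal_mul_I]
  have hq : Γ * exp ((θ : ℂ) * I) ^ (n + j) = p * exp (((j * θ : ℝ) : ℂ) * I) := by
    rw [pow_add, ← mul_assoc, ← exp_nat_mul _ j]
    push_cast
    rw [mul_assoc (j : ℂ)]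
  rw [hq, mul_re, exp_ofReal_mul_I_re, exp_ofReal_mul_I_im] at h2
  have hs := Real.sin_gt_sub_cube (x := j * θ) (by positivity)
  have hx0 : 0 < (j : ℝ) * θ := by positivity
  have hs2 : 5 * θ ≤ Real.sin (j * θ) := by
    have h3 : (j * θ) ^ 3 ≤ j * θ := by
      have : (j * θ) ^ 2 ≤ 1 := pow_le_one₀ hx0.le hjQ
      nlinarith
    nlinarith
  have hc1 := Real.abs_cos_le_one (j * θ)
  have h4 : |p.im| * Real.sin (j * θ) ≤ 4 * θ * ‖Γ‖ := by
    have h5 : |p.im * Real.sin (j * θ)| ≤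
        |p.re * Real.cos (j * θ) - p.im * Real.sin (j * θ)| + |p.re * Real.cos (j * θ)| := by
      have := abs_sub (p.re * Real.cos (j * θ))
        (p.re * Real.cos (j * θ) - p.im * Real.sin (j * θ))
      rw [sub_sub_cancel] at this
      linarith
    rw [abs_mul, abs_mul, abs_of_nonneg (by linarith : 0 ≤ Real.sin (j * θ))] at h5
    have := mul_le_mul h1 hc1 (abs_nonneg _) (by positivity)
    linarith
  have h6 := Complex.norm_le_abs_re_add_abs_im p
  have hΓ0 : 0 < ‖Γ‖ := norm_pos_iff.mpr hΓ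
  have h7 : 9 / 10 * ‖Γ‖ ≤ |p.im| := by nlinarith
  have h8 : 9 / 10 * ‖Γ‖ * (5 * θ) ≤ |p.im| * Real.sin (j * θ) :=
    mul_le_mul h7 hs2 (by positivity) (abs_nonneg _)
  nlinarith [mul_pos hθ0 hΓ0]

lemma far (a θ : ℝ) (ha : 0 < a) (h0 : 0 < θ) (h1 : θ ≤ 1) :
    |a - 1| < ‖exp ((θ : ℂ) * I) - a‖ := by
  have hs : 0 < Real.sin θ := Real.sin_pos_of_pos_of_le_one h0 h1
  have hc : Real.cos θ < 1 := by nlinarith [Real.sin_sq_add_cos_sq θ, Real.cos_le_one θ]
  refine abs_lt_of_sq_lt_sq ?_ (norm_nonneg _)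
  rw [Complex.sq_norm, normSq_apply, sub_re, sub_im, exp_ofReal_mul_I_re, exp_ofReal_mul_I_im]
  simp only [ofReal_re, ofReal_im, sub_zero]
  nlinarith [Real.sin_sq_add_cos_sq θ, mul_pos ha (sub_pos.mpr hc)]

variable {E : Type*} [NormedAddCommGroup E] [NormedSpace ℂ E]

/-- the rotated orbit of `y` read through `φ`, compared with a slow oscillation -/
noncomputable def seq (S : E →L[ℂ] E) (φ : E →L[ℂ] ℂ) (v z β : ℂ) (y : E) (γ : ℂ) (n : ℕ) : ℝ :=
  (β * v ^ n * φ ((S ^ n) y) - γ * z ^ n).re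

lemma dif_seq (B : E →L[ℂ] E) (φ : E →L[ℂ] ℂ) (lam v z : ℂ) (a : ℝ) (hv : v * lam = a)
    (k : ℕ) (β : ℂ) (y : E) (γ : ℂ) :
    (dif a)^[k] (seq (lam • 1 + B) φ v z β y γ) =
      seq (lam • 1 + B) φ v z (β * v ^ k) ((B ^ k) y) (γ * (z - a) ^ k) := by
  induction k generalizing β y γ with
  | zero => simp
  | succ k ih =>
    have h : dif a (seq (lam • 1 + B) φ v z β y γ) =
        seq (lam • 1 + B) φ v z (β * v) (B y) (γ * (z - a)) := by
      ext n
      simp only [dif, seq]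
      rw [← re_ofReal_mul, ← sub_re]
      congr 1
      rw [pow_succ (lam • 1 + B), mul_apply_eq_comp]
      simp only [add_apply, smul_apply,
        one_apply_eq_self, map_add, map_smul, smul_eq_mul]
      rw [← hv]
      ring
    rw [Function.iterate_succ_apply, h, ih, pow_succ' v, pow_succ' (z - a), pow_succ B,
      mul_apply_eq_comp, mul_assoc, mul_assoc]

lemma pow_bound (S : E →L[ℂ] E) (G i : ℕ) (hi : i ≤ G) (y : E) :
    ‖(S ^ i) y‖ ≤ (‖S‖ + 1) ^ G * ‖y‖ := by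
  have h1 : ∀ i : ℕ, ‖(S ^ i) y‖ ≤ (‖S‖ + 1) ^ i * ‖y‖ := by
    intro i
    induction i with
    | zero => simp
    | succ i ih =>
      rw [pow_succ', mul_apply_eq_comp, pow_succ']
      refine (S.le_opNorm _).trans ?_
      rw [mul_assoc]
      exact mul_le_mul (by linarith) ih (norm_nonneg _) (by positivity)
  refine (h1 i).trans (mul_le_mul_of_nonneg_right ?_ (norm_nonneg _))
  exact pow_le_pow_right₀ (by linarith [norm_nonneg S]) hi

theorem no_rec (B : E →L[ℂ] E) (φ : E →L[ℂ] ℂ) (lam : ℂ) (hl : lam ≠ 0)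
    (H : ∀ r : ℝ, |‖lam‖ - 1| < r → ∀ K, ∃ k ≥ K, ∀ y, ‖φ ((B ^ k) y)‖ ≤ r ^ k * ‖y‖)
    (M₀ : ℝ) (x : E) (A : ℕ → Prop)
    (hA : ∀ n, A n → ‖((lam • 1 + B) ^ n) x‖ ≤ M₀ ∧ ‖φ (((lam • 1 + B) ^ n) x)‖ < 1 / 10 ∧
      9 / 10 < ‖φ (((lam • 1 + B) ^ (n + 1)) x)‖) :
    ¬ ∃ d : ℝ, 0 < d ∧ ∀ N₀, ∃ N ≥ N₀, ∃ s, d * N ≤ cnt (fun n => A (s + n)) N := by
  intro h
  obtain ⟨d, hd, h⟩ := windows A h
  obtain ⟨G, h⟩ := h (d / 128) (by positivity)
  set S := lam • 1 + B with hS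
  obtain ⟨Q₀, hQ₀⟩ := exists_nat_ge (448 / d)
  set Q := max Q₀ 20 with hQ
  have hQ20 : 20 ≤ Q := le_max_right _ _
  have hQr : (20 : ℝ) ≤ Q := by exact_mod_cast hQ20
  have hQd : 448 / d ≤ Q := hQ₀.trans (by exact_mod_cast le_max_left _ _)
  set θ : ℝ := 1 / Q with hθ
  have hθ0 : 0 < θ := by positivity
  have hθ1 : θ ≤ 1 / 20 := one_div_le_one_div_of_le (by norm_num) hQr
  set z := exp ((θ : ℂ) * I) with hz
  have hzn : ‖z‖ = 1 := norm_exp_ofReal_mul_I θ
  have hz1 : ‖z - 1‖ ≤ θ := by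
    have := Real.norm_exp_I_mul_ofReal_sub_one_le (x := θ)
    rwa [mul_comm, Real.norm_of_nonneg hθ0.le] at this
  set a := ‖lam‖ with ha
  have ha0 : 0 < a := norm_pos_iff.mpr hl
  have hfar := far a θ ha0 hθ0 (by linarith)
  rw [← hz] at hfar
  set ρ := ‖z - a‖ with hρ
  have hρ0 : 0 < ρ := lt_of_le_of_lt (abs_nonneg _) hfar
  set r := (|a - 1| + ρ) / 2 with hr
  have hr0 : 0 < r := by positivity
  set M := (‖S‖ + 1) ^ G * (|M₀| + 1) with hM
  have hM0 : 0 < M := by positivity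
  have hlim := tendsto_pow_atTop_nhds_zero_of_lt_one (r := r / ρ) (by positivity)
    ((div_lt_one hρ0).mpr (by linarith))
  obtain ⟨K, hK⟩ := eventually_atTop.mp
    (hlim.eventually (gt_mem_nhds (show 0 < θ * (2 / 5) / M by positivity)))
  obtain ⟨k, hk, hB⟩ := H r (by linarith) K
  have hsmall : r ^ k * M < θ * (2 / 5 * ρ ^ k) := by
    have := hK k hk
    rw [div_pow, div_lt_div_iff₀ (by positivity) hM0] at this
    linarith
  obtain ⟨N₀, hN₀⟩ := exists_nat_gt (32 * (8 + k) / d)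
  obtain ⟨N, hN, s, h1, h2⟩ := h N₀
  set v : ℂ := a / lam with hv
  have hvl : v * lam = a := by rw [hv]; field_simp
  have hvn : ‖v‖ = 1 := by
    rw [hv, norm_div, norm_real, Real.norm_of_nonneg ha0.le, div_self ha0.ne']
  set y := (S ^ (s + G)) x with hy
  have hyn : ∀ n, (S ^ n) y = (S ^ (s + G + n)) x := by
    intro n
    rw [hy, ← mul_apply_eq_comp, ← pow_add, add_comm]
  set F : Finset ℂ := {1, -1, I, -I} with hF
  have hvis : ∀ n, A (s + G + n) →
      ∃ i ∈ F ×ˢ F, Chg (seq S φ v z i.1 y (i.2 * (2 / 5))) n := by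
    intro n hn
    obtain ⟨-, h3, h4⟩ := hA _ hn
    rw [add_assoc (s + G), ← hyn] at h4
    rw [← hyn] at h3
    obtain ⟨β, hβ, h5⟩ := four (v ^ (n + 1) * φ ((S ^ (n + 1)) y))
    obtain ⟨γ, hγ, h6⟩ := four (z ^ n)
    refine ⟨(β, γ), mem_product.mpr ⟨hβ, hγ⟩, ?_⟩
    have h7 : (β * v ^ n * φ ((S ^ n) y)).re < 1 / 10 := by
      refine lt_of_le_of_lt (re_le_norm _) ?_
      simpa [four_norm hβ, hvn] using h3
    have h8 : (γ * z ^ (n + 1)).re ≤ 1 := by
      refine (re_le_norm _).trans ?_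
      simp [four_norm hγ, hzn]
    simp only [norm_mul, norm_pow, hvn, hzn, one_pow, one_mul] at h5 h6
    have e1 : ∀ m, (γ * (2 / 5) * z ^ m).re = 2 / 5 * (γ * z ^ m).re := by
      intro m
      have : γ * (2 / 5) * z ^ m = ((2 / 5 : ℝ) : ℂ) * (γ * z ^ m) := by push_cast; ring
      rw [this, re_ofReal_mul]
    simp only [Chg, seq, sub_re, e1]
    rw [← mul_assoc] at h5
    intro h9
    have := h9.mpr (by linarith)
    linarith
  have hone : ∀ i ∈ F ×ˢ F, (cnt (Chg (seq S φ v z i.1 y (i.2 * (2 / 5)))) N : ℝ) ≤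
      2 * (d / 128 * N) + 1 + 7 * (N / Q + 1) + k := by
    rintro ⟨β, γ⟩ hi
    obtain ⟨hβ, hγ⟩ := mem_product.mp hi
    have h3 := (cnt_mono _ (Nat.le_add_right N k)).trans
      (rolle ha0 k (seq S φ v z β y (γ * (2 / 5))) N)
    rw [hS, dif_seq B φ lam v z a hvl, ← hS] at h3
    set Γ := γ * (2 / 5) * (z - a) ^ k with hΓ
    have hΓn : ‖Γ‖ = 2 / 5 * ρ ^ k := by simp [hΓ, four_norm hγ, hρ]
    have hΓ0 : Γ ≠ 0 := by
      rw [← norm_pos_iff, hΓn]
      positivity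
    have hgood : ∀ n, ¬ (∀ j < G, ¬ A (s + n + j)) →
        |(β * v ^ k * v ^ n * φ ((S ^ n) ((B ^ k) y))).re| < θ * ‖Γ‖ := by
      intro n hn
      push Not at hn
      obtain ⟨j, hj, hAj⟩ := hn
      have hc : (S ^ n) ((B ^ k) y) = (B ^ k) ((S ^ n) y) := by
        have : Commute S B :=
          (((Commute.one_left B).smul_left lam)).add_left (Commute.refl B)
        rw [← mul_apply_eq_comp, (this.pow_pow n k).eq, mul_apply_eq_comp]
      have hb : ‖(S ^ n) y‖ ≤ M := by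
        have e : (S ^ n) y = (S ^ (G - j)) ((S ^ (s + n + j)) x) := by
          rw [hyn, ← mul_apply_eq_comp, ← pow_add]
          congr 2
          omega
        rw [e]
        refine (pow_bound S G _ (Nat.sub_le _ _) _).trans
          (mul_le_mul_of_nonneg_left ?_ (by positivity))
        linarith [(hA _ hAj).1, le_abs_self M₀]
      refine lt_of_le_of_lt (abs_re_le_norm _) ?_
      simp only [norm_mul, norm_pow, four_norm hβ, hvn, one_pow, one_mul]
      rw [hc, hΓn]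
      exact lt_of_le_of_lt ((hB _).trans (mul_le_mul_of_nonneg_left hb (by positivity))) hsmall
    have h4 := cnt_or3 (Chg (seq S φ v z (β * v ^ k) ((B ^ k) y) Γ))
      (fun n => ∀ j < G, ¬ A (s + n + j)) (fun n => ∀ j < G, ¬ A (s + (n + 1) + j))
      (fun n => |(Γ * z ^ n).re| ≤ 2 * θ * ‖Γ‖) (fun n hn => by
        by_contra hc
        rw [not_or, not_or] at hc
        obtain ⟨c1, c2, c3⟩ := hc
        have g1 := abs_lt.mp (hgood n c1)
        have g2 := abs_lt.mp (hgood (n + 1) c2)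
        have g3 : |(Γ * z ^ (n + 1)).re - (Γ * z ^ n).re| ≤ θ * ‖Γ‖ := by
          rw [← sub_re]
          refine (abs_re_le_norm _).trans ?_
          have : Γ * z ^ (n + 1) - Γ * z ^ n = (z - 1) * (Γ * z ^ n) := by ring
          rw [this, norm_mul, norm_mul, norm_pow, hzn, one_pow, mul_one]
          exact mul_le_mul_of_nonneg_right hz1 (norm_nonneg _)
        have g4 := abs_le.mp g3
        apply hn
        simp only [seq, sub_re]
        rcases lt_abs.mp (not_le.mp c3) with g5 | g5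
        · exact ⟨fun g => by linarith, fun g => by linarith⟩
        · exact ⟨fun g => by linarith, fun g => by linarith⟩) N
    have h5 := cnt_shift' (fun n => ∀ j < G, ¬ A (s + n + j)) N
    have h6 := cnt_sparse (fun n => |(Γ * z ^ n).re| ≤ 2 * θ * ‖Γ‖) Q (by omega)
      (fun n j => slow_sparse Q hQ20 Γ hΓ0 n j) N
    have h7 : (cnt (Chg (seq S φ v z β y (γ * (2 / 5)))) N : ℝ) ≤
        cnt (fun n => ∀ j < G, ¬ A (s + n + j)) N +
          (cnt (fun n => ∀ j < G, ¬ A (s + n + j)) N + 1) +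
          cnt (fun n => |(Γ * z ^ n).re| ≤ 2 * θ * ‖Γ‖) N + k := by
      exact_mod_cast h3.trans (by omega)
    linarith
  have h8 : (cnt (fun n => A (s + G + n)) N : ℝ) ≤
      ∑ i ∈ F ×ˢ F, (cnt (Chg (seq S φ v z i.1 y (i.2 * (2 / 5)))) N : ℝ) := by
    exact_mod_cast cnt_sum (F ×ˢ F) _ _ hvis N
  have h9 := sum_le_card_nsmul _ _ _ hone
  have hcard : ((F ×ˢ F).card : ℝ) ≤ 16 := by
    have : F.card ≤ 4 := card_le_four
    rw [card_product]
    exact_mod_cast Nat.mul_le_mul this this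
  rw [nsmul_eq_mul] at h9
  have hN0 : (0 : ℝ) ≤ N := Nat.cast_nonneg _
  have h10 := h1.trans (h8.trans (h9.trans (mul_le_mul_of_nonneg_right hcard (by positivity))))
  have h11 : (N : ℝ) / Q ≤ d / 448 * N := by
    rw [div_le_iff₀ (by linarith)]
    rw [div_le_iff₀ hd] at hQd
    nlinarith
  have h12 : (N₀ : ℝ) ≤ N := by exact_mod_cast hN
  rw [div_lt_iff₀ hd] at hN₀
  nlinarith

end Pool.Agent.MP_a8995d_an.K9
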