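import Pool.Agent.MP_a8995d_an.K9.NoRec
import Pool.Agent.MP_a8995d_an.K9.Homo

/-!
Periodic and homoclinic points of `lam + T` and the classification.
-/

namespace Pool.Agent.MP_a8995d_an.K9

open Finset Complex Filter Topology

lemma series_ball {F : Type*} [NormedAddCommGroup F] [NormedSpace ℂ F] [CompleteSpace F]
    (c : ℕ → F) (r : NNReal) (C : ℝ) (hc : ∀ᶠ k in atTop, ‖c k‖ * (r : ℝ) ^ k ≤ C) (hr : 0 < r) :
    HasFPowerSeriesOnBall (fun μ : ℂ => ∑' k, μ ^ k • c k)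
      (fun k => ContinuousMultilinearMap.mkPiRing ℂ (Fin k) (c k)) 0 r := by
  let p : FormalMultilinearSeries ℂ ℂ F := fun k => ContinuousMultilinearMap.mkPiRing ℂ (Fin k) (c k)
  have hp : (r : ENNReal) ≤ p.radius := p.le_radius_of_eventually_le C (by simpa [p] using hc)
  have hr' : (0 : ENNReal) < r := by exact_mod_cast hr
  have hB := (p.hasFPowerSeriesOnBall (hr'.trans_le hp)).mono hr' hp
  have hs : p.sum = fun μ => ∑' k, μ ^ k • c k := by
    ext μ
    simp [FormalMultilinearSeries.sum, p]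
  rwa [hs] at hB

lemma series_analytic {F : Type*} [NormedAddCommGroup F] [NormedSpace ℂ F] [CompleteSpace F]
    (c : ℕ → F) (r C : ℝ) (hc : ∀ᶠ k in atTop, ‖c k‖ * r ^ k ≤ C) (μ₀ : ℂ) (h0 : ‖μ₀‖ < r) :
    AnalyticAt ℂ (fun μ : ℂ => ∑' k, μ ^ k • c k) μ₀ := by
  have hr : 0 < r := lt_of_le_of_lt (norm_nonneg _) h0
  lift r to NNReal using hr.le
  exact (series_ball c r C hc hr).analyticOnNhd _ (by rw [Metric.eball_coe]; simpa using h0)

lemma series_zero {F : Type*} [NormedAddCommGroup F] [NormedSpace ℂ F] [CompleteSpace F]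
    (c : ℕ → F) (r C : ℝ) (hc : ∀ᶠ k in atTop, ‖c k‖ * r ^ k ≤ C) (μ₀ : ℂ) (h0 : ‖μ₀‖ < r)
    (h : ∃ᶠ μ in 𝓝[≠] μ₀, ∑' k, μ ^ k • c k = 0) (k : ℕ) : c k = 0 := by
  have hr : 0 < r := lt_of_le_of_lt (norm_nonneg _) h0
  lift r to NNReal using hr.le
  have hB := series_ball c r C hc hr
  have hz := hB.analyticOnNhd.eqOn_zero_of_preconnected_of_frequently_eq_zero
    (by rw [Metric.eball_coe]; exact (convex_ball _ _).isPreconnected) (z₀ := μ₀)
    (by rw [Metric.eball_coe]; simpa using h0) h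
  have := hB.hasFPowerSeriesAt.eq_zero_of_eventually
    (eventuallyEq_of_mem (Metric.eball_mem_nhds _ hB.r_pos) hz)
  simpa using congrArg (fun q : FormalMultilinearSeries ℂ ℂ F => q k fun _ => 1) this

lemma roots_near (u : ℂ) (hu : ‖u‖ = 1) : ∃ᶠ z in 𝓝[≠] u, ∃ p : ℕ, 1 ≤ p ∧ z ^ p = 1 := by
  obtain ⟨θ, rfl⟩ := (norm_eq_one_iff u).mp hu
  set t : ℝ := θ / (2 * Real.pi) with ht
  let δ : ℕ → ℝ := fun m => ((⌊((m : ℝ) + 2) * t⌋ : ℝ) + 1) / (m + 2) - t
  have hm : ∀ m : ℕ, (0 : ℝ) < m + 2 := fun m => by positivity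
  have h1 : ∀ m, 0 < δ m := fun m => by
    have := Int.lt_floor_add_one (((m : ℝ) + 2) * t)
    simp only [δ, sub_pos]
    rw [lt_div_iff₀ (hm m)]
    linarith
  have h2 : ∀ m, δ m ≤ 1 / (m + 2) := fun m => by
    have := Int.floor_le (((m : ℝ) + 2) * t)
    simp only [δ]
    rw [sub_le_iff_le_add, div_le_iff₀ (hm m), add_mul (1 / _), div_mul_cancel₀ _ (hm m).ne']
    linarith
  have h3 : Tendsto δ atTop (𝓝 0) := squeeze_zero (fun m => (h1 m).le) h2
    (tendsto_const_nhds.div_atTop (tendsto_atTop_add_const_right _ _ tendsto_natCast_atTop_atTop))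
  have h4 : Tendsto (fun m => exp (θ * I) * exp (δ m * (2 * Real.pi * I))) atTop
      (𝓝[≠] (exp (θ * I))) := by
    refine tendsto_nhdsWithin_iff.mpr ⟨?_, Eventually.of_forall fun m hm' => ?_⟩
    · have : Continuous fun s : ℝ => exp (θ * I) * exp (s * (2 * Real.pi * I)) := by fun_prop
      simpa [Function.comp_def] using (this.tendsto 0).comp h3
    · rw [Set.mem_singleton_iff, mul_eq_left₀ (exp_ne_zero _), exp_eq_one_iff] at hm'
      obtain ⟨n, hn⟩ := hm'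
      have h5 : δ m = n := by exact_mod_cast mul_right_cancel₀ two_pi_I_ne_zero hn
      have h6 : 1 / ((m : ℝ) + 2) < 1 := by
        rw [div_lt_one (hm m)]
        linarith [Nat.cast_nonneg (α := ℝ) m]
      have h7 : (0 : ℝ) < n := h5 ▸ h1 m
      have h8 : (n : ℝ) < 1 := h5 ▸ (h2 m).trans_lt h6
      have h9 : 0 < n := by exact_mod_cast h7
      have h10 : n < 1 := by exact_mod_cast h8
      omega
  refine h4.frequently (Frequently.of_forall fun m => ⟨m + 2, by omega, ?_⟩)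
  rw [← exp_add, ← exp_nat_mul, exp_eq_one_iff]
  refine ⟨⌊((m : ℝ) + 2) * t⌋ + 1, ?_⟩
  have hθ : θ = t * (2 * Real.pi) := by rw [ht]; field_simp
  have hm' : (m : ℂ) + 2 ≠ 0 := by exact_mod_cast (hm m).ne'
  simp only [δ]
  rw [hθ]
  push_cast
  field_simp
  ring

variable {E : Type} [NormedAddCommGroup E] [NormedSpace ℂ E]

lemma per_mul {S : E →L[ℂ] E} {p : ℕ} {x : E} (h : (S ^ p) x = x) (m : ℕ) :
    (S ^ (m * p)) x = x := by
  induction m with
  | zero => simp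
  | succ m ih => rw [add_mul, one_mul, pow_add, mul_apply_eq_comp, h, ih]

/-- the periodic points form a subspace -/
def per (S : E →L[ℂ] E) : Submodule ℂ E where
  carrier := {x | ∃ p : ℕ, 0 < p ∧ (S ^ p) x = x}
  zero_mem' := ⟨1, one_pos, map_zero _⟩
  add_mem' := by
    rintro x y ⟨p, hp, hx⟩ ⟨q, hq, hy⟩
    refine ⟨p * q, mul_pos hp hq, ?_⟩
    rw [map_add, per_mul hy, mul_comm, per_mul hx]
  smul_mem' := by
    rintro c x ⟨p, hp, hx⟩
    exact ⟨p, hp, by rw [map_smul, hx]⟩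

lemma eigen [CompleteSpace E] (T : E →L[ℂ] E) (f : ℕ → E) (h0 : T (f 0) = 0)
    (hs : ∀ k, T (f (k + 1)) = f k) (μ : ℂ) (hμ : Summable fun k => μ ^ k • f k) :
    T (∑' k, μ ^ k • f k) = μ • ∑' k, μ ^ k • f k := by
  rw [T.map_tsum hμ, (T.summable hμ).tsum_eq_zero_add, ← hμ.tsum_const_smul]
  simp [h0, hs, smul_smul, pow_succ']

lemma summable_chain [CompleteSpace E] (f : ℕ → E) (r C : ℝ)
    (hc : ∀ᶠ k in atTop, ‖f k‖ * r ^ k ≤ C) (μ : ℂ) (hμ : ‖μ‖ < r) :
    Summable fun k => μ ^ k • f k := by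
  have hr : 0 < r := lt_of_le_of_lt (norm_nonneg _) hμ
  refine Summable.of_norm_bounded_eventually_nat (g := fun k => C * (‖μ‖ / r) ^ k)
    ((summable_geometric_of_lt_one (by positivity) ((div_lt_one hr).mpr hμ)).mul_left C)
    (hc.mono fun k hk => ?_)
  rw [norm_smul, norm_pow, div_pow, ← mul_div_assoc, le_div_iff₀ (by positivity), mul_assoc,
    mul_comm C]
  exact mul_le_mul_of_nonneg_left hk (by positivity)

theorem dense_of_eig [CompleteSpace E] (f : ℕ → E)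
    (hd : Dense (Submodule.span ℂ (Set.range f) : Set E)) (lam : ℂ) (hl : lam ≠ 0) (r C : ℝ)
    (hr : |‖lam‖ - 1| < r) (hc : ∀ᶠ k in atTop, ‖f k‖ * r ^ k ≤ C) (P : Submodule ℂ E)
    (hP : ∀ (z : ℂ) (p : ℕ), 1 ≤ p → z ^ p = 1 → ‖z - lam‖ < r →
      ∑' k, (z - lam) ^ k • f k ∈ closure (P : Set E)) : Dense (P : Set E) := by
  set N := P.topologicalClosure with hN
  have hcl : IsClosed (N : Set E) := Submodule.isClosed_topologicalClosure _
  have ha : (0 : ℝ) < ‖lam‖ := norm_pos_iff.mpr hl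
  have hac : (‖lam‖ : ℂ) ≠ 0 := by exact_mod_cast ha.ne'
  set u : ℂ := lam / ‖lam‖ with hu
  have hun : ‖u‖ = 1 := by simp [hu, ha.ne']
  have hμ₀ : ‖u - lam‖ < r := by
    have : u - lam = u * ((1 - ‖lam‖ : ℝ) : ℂ) := by rw [hu]; push_cast; field_simp
    rwa [this, norm_mul, hun, one_mul, norm_real, Real.norm_eq_abs, abs_sub_comm]
  have hr0 : 0 < r := lt_of_le_of_lt (abs_nonneg _) hr
  have hz := series_zero (fun k => N.mkQL (f k)) r C (hc.mono fun k hk =>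
    le_trans (mul_le_mul_of_nonneg_right (Submodule.Quotient.norm_mk_le _ _) (by positivity)) hk)
    (u - lam) hμ₀ (by
      have h1 : Tendsto (fun z => z - lam) (𝓝[≠] u) (𝓝[≠] (u - lam)) :=
        tendsto_nhdsWithin_iff.mpr ⟨((continuous_sub_right lam).tendsto u).mono_left
          nhdsWithin_le_nhds, eventually_mem_nhdsWithin.mono fun z hz h => hz (by simpa using h)⟩
      have h2 : ∀ᶠ z in 𝓝[≠] u, ‖z - lam‖ < r := nhdsWithin_le_nhds
        ((isOpen_lt (by fun_prop) continuous_const).mem_nhds hμ₀)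
      refine h1.frequently (((roots_near u hun).and_eventually h2).mono ?_)
      rintro z ⟨⟨p, hp, hz⟩, hzr⟩
      have h5 := N.mkQL.map_tsum (summable_chain f r C hc _ hzr)
      simp only [map_smul] at h5
      rw [← h5]
      exact (Submodule.Quotient.mk_eq_zero N).mpr (hP z p hp hz hzr))
  have h6 : Submodule.span ℂ (Set.range f) ≤ N := Submodule.span_le.mpr (by
    rintro _ ⟨k, rfl⟩
    exact (Submodule.Quotient.mk_eq_zero N).mp (hz k))
  exact dense_closure.mp (hd.mono h6)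

lemma eigen' [CompleteSpace E] (T : E →L[ℂ] E) (f : ℕ → E) (h0 : T (f 0) = 0)
    (hs : ∀ k, T (f (k + 1)) = f k) (lam : ℂ) (r C : ℝ) (hc : ∀ᶠ k in atTop, ‖f k‖ * r ^ k ≤ C)
    (z : ℂ) (hz : ‖z - lam‖ < r) :
    (lam • 1 + T : E →L[ℂ] E) (∑' k, (z - lam) ^ k • f k) = z • ∑' k, (z - lam) ^ k • f k := by
  rw [add_apply, smul_apply, one_apply_eq_self, eigen T f h0 hs _ (summable_chain f r C hc _ hz),
    ← add_smul, add_sub_cancel]

theorem dense_per [CompleteSpace E] (T : E →L[ℂ] E) (f : ℕ → E) (h0 : T (f 0) = 0)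
    (hs : ∀ k, T (f (k + 1)) = f k) (hd : Dense (Submodule.span ℂ (Set.range f) : Set E))
    (lam : ℂ) (hl : lam ≠ 0) (r C : ℝ) (hr : |‖lam‖ - 1| < r)
    (hc : ∀ᶠ k in atTop, ‖f k‖ * r ^ k ≤ C) :
    Dense {x | ∃ p : ℕ, 0 < p ∧ ((lam • 1 + T : E →L[ℂ] E) ^ p) x = x} := by
  refine dense_of_eig f hd lam hl r C hr hc (per (lam • 1 + T)) fun z p hp hz hzr => ?_
  have he := eigen' T f h0 hs lam r C hc z hzr
  set v := ∑' k, (z - lam) ^ k • f k with hv
  have h3 : ∀ m : ℕ, ((lam • 1 + T : E →L[ℂ] E) ^ m) v = z ^ m • v := by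
    intro m
    induction m with
    | zero => simp
    | succ m ih => rw [pow_succ', mul_apply_eq_comp, ih, map_smul, he, smul_smul, pow_succ]
  exact subset_closure ⟨p, hp, by rw [h3, hz, one_smul]⟩

theorem fhc [CompleteSpace E] (T : E →L[ℂ] E) (f : ℕ → E) (h0 : T (f 0) = 0)
    (hs : ∀ k, T (f (k + 1)) = f k) (hd : Dense (Submodule.span ℂ (Set.range f) : Set E))
    (lam : ℂ) (hl : lam ≠ 0) (r C : ℝ) (hr : |‖lam‖ - 1| < r)
    (hc : ∀ᶠ k in atTop, ‖f k‖ * r ^ k ≤ C) : FreqHypercyclic (lam • 1 + T) := by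
  have : TopologicalSpace.SeparableSpace E := by
    rw [← TopologicalSpace.isSeparable_univ_iff, ← hd.closure_eq]
    exact (Set.countable_range f).isSeparable.span.closure
  refine criterion _ (dense_of_eig f hd lam hl r C hr hc _ fun z p hp hz hzr => ?_)
  obtain ⟨θ, rfl⟩ := (norm_eq_one_iff z).mp (norm_eq_one_of_pow_eq_one hz (by omega))
  refine mem_closure_homo _ (fun t : ℝ => ∑' k, (exp (t * I) - lam) ^ k • f k) θ ?_
  have h1 : ∀ᶠ t : ℝ in 𝓝 θ, ‖exp (t * I) - lam‖ < r :=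
    (isOpen_lt (by fun_prop) continuous_const).mem_nhds hzr
  refine h1.mono fun t ht => ⟨?_, eigen' T f h0 hs lam r C hc _ ht⟩
  have h2 : AnalyticAt ℂ (fun s : ℂ => exp (s * I) - lam) t := by fun_prop
  exact (((series_analytic f r C hc _ ht).comp_of_eq h2 rfl).restrictScalars (𝕜 := ℝ)).comp
    (ofRealCLM.analyticAt t)

lemma ncard_eq (A : Set ℕ) (s N : ℕ) :
    (A ∩ Set.Ico s (s + N)).ncard = cnt (fun n => s + n ∈ A) N := by
  classical
  have : A ∩ Set.Ico s (s + N) = (fun n => s + n) '' ((range N).filter fun n => s + n ∈ A) := by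
    ext m
    simp only [Set.mem_inter_iff, Set.mem_Ico, coe_filter, mem_range, Set.mem_image,
      Set.mem_ofPred_eq]
    constructor
    · rintro ⟨h1, h2, h3⟩
      obtain ⟨n, rfl⟩ := Nat.exists_eq_add_of_le h2
      exact ⟨n, ⟨by omega, h1⟩, rfl⟩
    · rintro ⟨n, ⟨h1, h2⟩, rfl⟩
      exact ⟨h2, by omega, by omega⟩
  rw [this, Set.ncard_image_of_injective _ (add_right_injective s), Set.ncard_coe_finset, cnt]

lemma rec_of_per (S : E →L[ℂ] E) (h : Dense {x | ∃ p : ℕ, 0 < p ∧ (S ^ p) x = x}) :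
    DensityRecurrent S := by
  intro U hU hne
  obtain ⟨x, hxU, p, hp, hx⟩ := h.inter_open_nonempty U hU hne
  have hp' : (0 : ℝ) < p := by exact_mod_cast hp
  refine ⟨x, 1 / p, by positivity, fun N₀ => ⟨N₀ * p, Nat.le_mul_of_pos_right _ hp, 0, ?_⟩⟩
  rw [ncard_eq]
  have : ∀ m, m ≤ cnt (fun n => 0 + n ∈ {n | (S ^ n) x ∈ U}) (m * p) := by
    intro m
    induction m with
    | zero => simp
    | succ m ih =>
      rw [add_mul, one_mul, cnt_add]
      refine add_le_add ih (le_trans ?_ (cnt_mono _ hp))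
      rw [cnt_succ, if_pos (by rw [zero_add, add_zero, Set.mem_ofPred_eq, per_mul hx]; exact hxU)]
      omega
  have h2 : (N₀ : ℝ) ≤ _ := Nat.cast_le.mpr (this N₀)
  rw [Nat.cast_mul, one_div, mul_comm (N₀ : ℝ), inv_mul_cancel_left₀ hp'.ne']
  exact h2

lemma rec_of_fhc (S : E →L[ℂ] E) (h : FreqHypercyclic S) : DensityRecurrent S := by
  obtain ⟨x, hx⟩ := h
  intro U hU hne
  obtain ⟨d, hd, h⟩ := hx U hU hne
  refine ⟨x, d, hd, fun N₀ => ?_⟩
  obtain ⟨N, h1, h2⟩ := ((eventually_ge_atTop N₀).and h).exists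
  exact ⟨N, h1, 0, by rwa [zero_add, show Set.Ico 0 N = Set.Iio N from Set.Ico_bot]⟩

theorem classification [CompleteSpace E] (e : ℕ → E) (φ : ℕ → E →L[ℂ] ℂ)
    (hbi : ∀ i j, φ i (e j) = if i = j then 1 else 0)
    (hd : Dense (Submodule.span ℂ (Set.range e) : Set E)) (C : ℝ)
    (hC : ∀ k, ‖e k‖ ≤ C ∧ ‖φ k‖ ≤ C) (w : ℕ → ℝ) (hw : ∀ n, 1 ≤ n → 0 < w n) (T : E →L[ℂ] E)
    (hT : IsBackwardShift e w T) (lam : ℂ) (hl : lam ≠ 0) :
    List.TFAE [DensityRecurrent (lam • 1 + T), FreqHypercyclic (lam • 1 + T),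
      Dense {x | ∃ p : ℕ, 0 < p ∧ ((lam • 1 + T : E →L[ℂ] E) ^ p) x = x},
      ∃ r : ℝ, |‖lam‖ - 1| < r ∧ ∀ᶠ k in atTop, r ^ k ≤ ∏ i ∈ range k, w (i + 1)] := by
  obtain ⟨h0, hs⟩ := hT
  have hW : ∀ k, 0 < ∏ i ∈ range k, w (i + 1) := fun k => prod_pos fun i _ => hw _ (by omega)
  have hC0 : 0 ≤ C := (norm_nonneg _).trans (hC 0).1
  have hWc : ∀ k, ((∏ i ∈ range k, w (i + 1) : ℝ) : ℂ) ≠ 0 := fun k => by
    exact_mod_cast (hW k).ne'
  set f := fun k => ((∏ i ∈ range k, w (i + 1) : ℝ) : ℂ)⁻¹ • e k with hf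
  have hf0 : T (f 0) = 0 := by simp [hf, h0]
  have hfs : ∀ k, T (f (k + 1)) = f k := fun k => by
    have h1 : (w (k + 1) : ℂ) ≠ 0 := by exact_mod_cast (hw (k + 1) (by omega)).ne'
    have h2 := hWc k
    simp only [hf]
    rw [map_smul, hs, smul_smul, prod_range_succ]
    congr 1
    push_cast at h2 ⊢
    field_simp
  have hfd : Dense (Submodule.span ℂ (Set.range f) : Set E) := hd.mono (Submodule.span_le.mpr (by
    rintro _ ⟨k, rfl⟩
    exact (Submodule.smul_mem_iff _ (inv_ne_zero (hWc k))).mp (Submodule.subset_span ⟨k, rfl⟩)))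
  have hfb : ∀ (r : ℝ) k, r ^ k ≤ ∏ i ∈ range k, w (i + 1) → ‖f k‖ * r ^ k ≤ C := fun r k hk => by
    simp only [hf]
    rw [norm_smul, norm_inv, norm_real, Real.norm_of_nonneg (hW k).le, mul_right_comm]
    exact (mul_le_mul (inv_mul_le_one_of_le₀ hk (hW k).le) (hC k).1 (norm_nonneg _)
      zero_le_one).trans (by simp)
  tfae_have 2 → 1 := rec_of_fhc _
  tfae_have 3 → 1 := rec_of_per _
  tfae_have 4 → 2 := fun ⟨r, hr, h⟩ => fhc T f hf0 hfs hfd lam hl r C hr (h.mono (hfb r))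
  tfae_have 4 → 3 := fun ⟨r, hr, h⟩ => dense_per T f hf0 hfs hfd lam hl r C hr (h.mono (hfb r))
  tfae_have 1 → 4 := by
    intro h
    by_contra hc
    have h1 : ∀ i y, φ i (T y) = w (i + 1) * φ (i + 1) y := by
      intro i y
      have : (φ i).comp T = (w (i + 1) : ℂ) • φ (i + 1) := by
        refine ContinuousLinearMap.ext_on hd ?_
        rintro _ ⟨j, rfl⟩
        rcases j with _ | j
        · simp [h0, hbi]
        · by_cases hij : i = j <;> simp [hs, hbi, hij]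
      simpa using congrArg (fun g : E →L[ℂ] ℂ => g y) this
    have h2 : ∀ k y, φ 0 ((T ^ k) y) = ((∏ i ∈ range k, w (i + 1) : ℝ) : ℂ) * φ k y := by
      intro k
      induction k with
      | zero => simp
      | succ k ih =>
        intro y
        rw [pow_succ, mul_apply_eq_comp, ih, h1, prod_range_succ]
        push_cast
        ring
    have hw1 : (w 1 : ℂ) ≠ 0 := by exact_mod_cast (hw 1 le_rfl).ne'
    set y₀ := (w 1 : ℂ)⁻¹ • e 1 with hy
    obtain ⟨x, d, hd0, hx⟩ := h {y | ‖y‖ < ‖y₀‖ + 1 ∧ ‖φ 0 y‖ < 1 / 10 ∧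
        9 / 10 < ‖φ 0 ((lam • 1 + T : E →L[ℂ] E) y)‖}
      (by
        refine IsOpen.and ?_ (IsOpen.and ?_ ?_) <;> exact isOpen_lt (by fun_prop) (by fun_prop))
      ⟨y₀, by simp, by simp [hy, hbi], by
        have : φ 0 ((lam • 1 + T : E →L[ℂ] E) y₀) = 1 := by simp [hy, hbi, h1, hw1]
        rw [this]
        norm_num⟩
    simp only [ncard_eq] at hx
    refine no_rec T (φ 0) lam hl (fun r hr K => ?_) (‖y₀‖ + 1) x _ (fun n hn => ?_) ⟨d, hd0, hx⟩
    · obtain ⟨r', hr1, hr2⟩ := exists_between hr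
      have hr0 : 0 < r' := lt_of_le_of_lt (abs_nonneg _) hr1
      have h3 : ∃ᶠ k in atTop, ∏ i ∈ range k, w (i + 1) < r' ^ k := by
        simpa using not_eventually.mp fun h => hc ⟨r', hr1, h⟩
      have h4 := (tendsto_pow_atTop_atTop_of_one_lt
        ((one_lt_div hr0).mpr hr2)).eventually_ge_atTop C
      obtain ⟨k, hk, h5, h6⟩ := frequently_atTop.mp (h3.and_eventually h4) K
      refine ⟨k, hk, fun y => ?_⟩
      rw [div_pow, le_div_iff₀ (by positivity)] at h6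
      rw [h2, norm_mul, norm_real, Real.norm_of_nonneg (hW k).le]
      calc _ ≤ r' ^ k * (C * ‖y‖) := mul_le_mul h5.le ((φ k).le_of_opNorm_le (hC k).2 y)
            (norm_nonneg _) (by positivity)
        _ ≤ _ := by
          rw [← mul_assoc, mul_comm _ C]
          exact mul_le_mul_of_nonneg_right h6 (norm_nonneg _)
    · refine ⟨hn.1.le, hn.2.1, ?_⟩
      rw [pow_succ', mul_apply_eq_comp]
      exact hn.2.2
  tfae_finish

end Pool.Agent.MP_a8995d_an.K9
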