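import Mathlib

/-!
Sign changes of real sequences, the discrete Rolle inequality, windows of extremal density.
-/

namespace Pool.Agent.MP_a8995d_an.K9

open Finset

open Classical in
/-- number of `n < N` with `P n` -/
noncomputable def cnt (P : ℕ → Prop) (N : ℕ) : ℕ := ((range N).filter P).card

open Classical in
lemma cnt_succ (P : ℕ → Prop) (N : ℕ) : cnt P (N + 1) = cnt P N + if P N then 1 else 0 := by
  unfold cnt
  rw [range_add_one, filter_insert]
  split_ifs with h
  · rw [card_insert_of_notMem (by simp)]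
  · simp

@[simp] lemma cnt_zero (P : ℕ → Prop) : cnt P 0 = 0 := by simp [cnt]

lemma cnt_le (P : ℕ → Prop) (N : ℕ) : cnt P N ≤ N := by
  classical
  unfold cnt
  exact (card_filter_le _ _).trans (by simp)

lemma cnt_add (P : ℕ → Prop) (M N : ℕ) :
    cnt P (M + N) = cnt P M + cnt (fun n => P (M + n)) N := by
  induction N with
  | zero => simp
  | succ N ih => rw [← add_assoc, cnt_succ, cnt_succ, ih, add_assoc]

lemma cnt_mono (P : ℕ → Prop) {M N : ℕ} (h : M ≤ N) : cnt P M ≤ cnt P N := by
  obtain ⟨k, rfl⟩ := Nat.exists_eq_add_of_le h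
  rw [cnt_add]; omega

lemma cnt_shift (P : ℕ → Prop) (j N : ℕ) : cnt P N ≤ cnt (fun n => P (j + n)) N + j := by
  have h1 := cnt_mono P (Nat.le_add_left N j)
  rw [cnt_add] at h1
  have := cnt_le P j
  omega

lemma cnt_shift' (P : ℕ → Prop) (N : ℕ) : cnt (fun n => P (n + 1)) N ≤ cnt P N + 1 := by
  have h1 := cnt_add P 1 N
  have h2 := cnt_succ P N
  have h3 : (fun n => P (1 + n)) = fun n => P (n + 1) := by ext n; rw [add_comm]
  rw [h3, add_comm 1 N] at h1
  split_ifs at h2 <;> omega

lemma cnt_or3 (P A B C : ℕ → Prop) (h : ∀ n, P n → A n ∨ B n ∨ C n) (N : ℕ) :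
    cnt P N ≤ cnt A N + cnt B N + cnt C N := by
  induction N with
  | zero => simp
  | succ N ih =>
    simp only [cnt_succ]
    have := h N
    split_ifs <;> first | omega | tauto

lemma cnt_sum {ι : Type} (s : Finset ι) (P : ℕ → Prop) (A : ι → ℕ → Prop)
    (h : ∀ n, P n → ∃ i ∈ s, A i n) (N : ℕ) : cnt P N ≤ ∑ i ∈ s, cnt (A i) N := by
  classical
  induction N with
  | zero => simp
  | succ N ih =>
    simp only [cnt_succ, sum_add_distrib]
    refine add_le_add ih ?_
    split_ifs with hP
    · obtain ⟨i, hi, hA⟩ := h N hP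
      refine le_trans ?_ (single_le_sum (f := fun i => if A i N then 1 else 0)
        (fun _ _ => Nat.zero_le _) hi)
      simp [hA]
    · exact Nat.zero_le _

/-- a sign change between `n` and `n + 1` -/
def Chg (g : ℕ → ℝ) (n : ℕ) : Prop := ¬ (0 < g n ↔ 0 < g (n + 1))

/-- the operator `shift - a` on sequences -/
def dif (a : ℝ) (g : ℕ → ℝ) (n : ℕ) : ℝ := g (n + 1) - a * g n

lemma chg_dif {a : ℝ} (ha : 0 < a) {g : ℕ → ℝ} {n : ℕ} (h : Chg g n) :
    0 < dif a g n ↔ 0 < g (n + 1) := by
  unfold Chg at h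
  unfold dif
  by_cases h1 : 0 < g (n + 1)
  · have h2 : g n ≤ 0 := by
      by_contra h2
      exact h ⟨fun _ => h1, fun _ => not_le.mp h2⟩
    have := mul_nonneg ha.le (neg_nonneg.mpr h2)
    exact ⟨fun _ => h1, fun _ => by linarith⟩
  · have h2 : 0 < g n := by
      by_contra h2
      exact h ⟨fun h3 => absurd h3 h2, fun h3 => absurd h3 h1⟩
    have := mul_pos ha h2
    exact ⟨fun _ => by linarith, fun h3 => absurd h3 h1⟩

open Classical in
lemma rolle_aux {a : ℝ} (ha : 0 < a) (g : ℕ → ℝ) (N : ℕ) :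
    cnt (Chg g) (N + 1) + (if (0 < dif a g N ↔ 0 < g (N + 1)) then 0 else 1) ≤
      cnt (Chg (dif a g)) N + 1 := by
  induction N with
  | zero =>
    rw [cnt_succ]
    have := chg_dif ha (g := g) (n := 0)
    simp only [cnt_zero]
    split_ifs <;> first | omega | tauto
  | succ N ih =>
    rw [cnt_succ (Chg g), cnt_succ (Chg (dif a g))]
    have h1 := chg_dif ha (g := g) (n := N + 1)
    have h2 : Chg (dif a g) N ↔ ¬ (0 < dif a g N ↔ 0 < dif a g (N + 1)) := Iff.rfl
    have h3 : Chg g (N + 1) ↔ ¬ (0 < g (N + 1) ↔ 0 < g (N + 1 + 1)) := Iff.rfl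
    split_ifs at ih ⊢ <;> first | omega | tauto

lemma rolle {a : ℝ} (ha : 0 < a) (k : ℕ) (g : ℕ → ℝ) (N : ℕ) :
    cnt (Chg g) (N + k) ≤ cnt (Chg ((dif a)^[k] g)) N + k := by
  induction k generalizing g with
  | zero => simp
  | succ k ih =>
    have h1 := rolle_aux ha g (N + k)
    have h2 := ih (dif a g)
    rw [Function.iterate_succ_apply, ← add_assoc]
    omega

/-- a set without two elements at a distance in `[7, Q)` has density at most `7 / Q` -/
lemma cnt_sparse (P : ℕ → Prop) (Q : ℕ) (hQ : 0 < Q)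
    (h : ∀ n j, P n → P (n + j) → j < Q → j < 7) (N : ℕ) :
    (cnt P N : ℝ) ≤ 7 * (N / Q + 1) := by
  classical
  have h1 : ∀ s, cnt (fun n => P (s + n)) Q ≤ 7 := by
    intro s
    unfold cnt
    rcases ((range Q).filter fun n => P (s + n)).eq_empty_or_nonempty with h0 | h0
    · convert Nat.zero_le 7
      rw [card_eq_zero]
      convert h0
    · set m := min' _ h0 with hm
      have hm1 := mem_filter.mp (min'_mem _ h0)
      rw [← hm] at hm1
      refine (card_le_card (t := Ico m (m + 7)) fun n hn => ?_).trans (by simp)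
      have hn1 : n ∈ (range Q).filter fun n => P (s + n) := by convert hn
      have h2 : m ≤ n := min'_le _ _ hn1
      obtain ⟨j, rfl⟩ := Nat.exists_eq_add_of_le h2
      have hn2 := mem_filter.mp hn1
      have := h (s + m) j hm1.2 (by rw [add_assoc]; exact hn2.2)
        (by have := mem_range.mp hn2.1; omega)
      simp only [mem_Ico]
      omega
  have h2 : ∀ m, cnt P (m * Q) ≤ 7 * m := by
    intro m
    induction m with
    | zero => simp
    | succ m ih =>
      rw [add_mul, one_mul, cnt_add]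
      have := h1 (m * Q)
      omega
  have h3 : N ≤ (N / Q + 1) * Q := by
    have := Nat.lt_div_mul_add (a := N) hQ
    nlinarith
  have h4 : (cnt P N : ℝ) ≤ 7 * ((N / Q : ℕ) + 1) := by
    exact_mod_cast (cnt_mono P h3).trans (h2 _)
  have h5 : ((N / Q : ℕ) : ℝ) ≤ N / Q := Nat.cast_div_le
  linarith

lemma cnt_swap (P : ℕ → Prop) (G N : ℕ) :
    ∑ n ∈ range N, cnt (fun j => P (n + j)) G = ∑ j ∈ range G, cnt (fun n => P (j + n)) N := by
  classical
  simp only [cnt, card_filter]
  rw [sum_comm]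
  simp only [add_comm]

/-- In windows of extremal density almost every time follows a visit closely. -/
lemma windows (A : ℕ → Prop)
    (hA : ∃ d : ℝ, 0 < d ∧ ∀ N₀, ∃ N ≥ N₀, ∃ s, d * N ≤ cnt (fun n => A (s + n)) N) :
    ∃ d : ℝ, 0 < d ∧ ∀ η : ℝ, 0 < η → ∃ G, ∀ N₀, ∃ N ≥ N₀, ∃ s,
      d * N ≤ cnt (fun n => A (s + G + n)) N ∧
        (cnt (fun n => ∀ j < G, ¬ A (s + n + j)) N : ℝ) ≤ η * N := by
  classical
  obtain ⟨d, hd, hA⟩ := hA
  let Δ : Set ℝ := {e | ∀ G, 1 ≤ G → ∃ s, e * G ≤ cnt (fun n => A (s + n)) G}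
  have hb : BddAbove Δ := ⟨1, fun e he => by
    obtain ⟨s, hs⟩ := he 1 le_rfl
    have : (cnt (fun n => A (s + n)) 1 : ℝ) ≤ (1 : ℕ) := by exact_mod_cast cnt_le _ 1
    simp only [Nat.cast_one, mul_one] at hs this
    linarith⟩
  have hd2 : d / 2 ∈ Δ := by
    intro G hG
    by_contra hc
    push Not at hc
    have h2 : ∀ s m : ℕ, (cnt (fun n => A (s + n)) (m * G) : ℝ) ≤ d / 2 * G * m := by
      intro s m
      induction m with
      | zero => simp
      | succ m ih =>
        rw [add_mul, one_mul, cnt_add]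
        have := hc (s + m * G)
        simp only [add_assoc] at this
        push_cast
        linarith
    obtain ⟨N, hN, s, hs⟩ := hA (G + 1)
    have h3 : N ≤ (N / G + 1) * G := by
      have := Nat.lt_div_mul_add (a := N) (show 0 < G by omega)
      nlinarith
    have h4 : (cnt (fun n => A (s + n)) N : ℝ) ≤ cnt (fun n => A (s + n)) ((N / G + 1) * G) := by
      exact_mod_cast cnt_mono _ h3
    have h5 := h2 s (N / G + 1)
    have h6 : (G : ℝ) * (N / G : ℕ) ≤ N := by exact_mod_cast Nat.mul_div_le N G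
    have h7 : (G : ℝ) + 1 ≤ N := by exact_mod_cast hN
    push_cast at h5
    nlinarith
  set e := sSup Δ with he
  have he0 : 0 < e := lt_of_lt_of_le (half_pos hd) (le_csSup hb hd2)
  refine ⟨e / 2, half_pos he0, fun η hη => ?_⟩
  set ε := min (e / 4) (η * e / 4) with hε
  have hε0 : 0 < ε := lt_min (by positivity) (by positivity)
  have hε1 : ε ≤ e / 4 := min_le_left _ _
  have hε2 : ε ≤ η * e / 4 := min_le_right _ _
  have hup : e + ε ∉ Δ := fun h => by have := le_csSup hb h; linarith
  obtain ⟨e', he', hlt⟩ := exists_lt_of_lt_csSup ⟨_, hd2⟩ (show e - ε < e by linarith)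
  simp only [Δ, Set.mem_ofPred_eq, not_forall, not_exists, not_le] at hup
  obtain ⟨G, hG, hup⟩ := hup
  refine ⟨G, fun N₀ => ?_⟩
  obtain ⟨N₁, hN₁⟩ := exists_nat_ge (G / ε)
  set N := max (max N₀ N₁) 1 with hN
  have hN1 : (G : ℝ) ≤ ε * N := by
    have : (N₁ : ℝ) ≤ N := by exact_mod_cast (le_max_right _ _).trans (le_max_left _ _)
    rw [div_le_iff₀ hε0] at hN₁
    nlinarith
  obtain ⟨s, hs⟩ := he' N (le_max_right _ _)
  have hN0 : (0 : ℝ) ≤ N := Nat.cast_nonneg _
  have hsh : ∀ j ≤ G, (e - 2 * ε) * N ≤ cnt (fun n => A (s + j + n)) N := by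
    intro j hj
    have h1 : (cnt (fun n => A (s + n)) N : ℝ) ≤ cnt (fun n => A (s + (j + n))) N + j := by
      exact_mod_cast cnt_shift (fun n => A (s + n)) j N
    have h2 : (j : ℝ) ≤ G := by exact_mod_cast hj
    simp only [add_assoc]
    nlinarith
  refine ⟨N, (le_max_left _ _).trans (le_max_left _ _), s, ?_, ?_⟩
  · have := hsh G le_rfl
    nlinarith
  · set b := cnt (fun n => ∀ j < G, ¬ A (s + n + j)) N with hbd
    have h1 : (G : ℝ) * ((e - 2 * ε) * N) ≤
        ∑ n ∈ range N, (cnt (fun j => A (s + (n + j))) G : ℝ) := by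
      have := cnt_swap (fun n => A (s + n)) G N
      rw [← Nat.cast_sum, this, Nat.cast_sum]
      have h2 := sum_le_sum (s := range G) fun j hj => hsh j (mem_range.mp hj).le
      simpa [add_assoc] using h2
    have h2 : ∀ M, ∑ n ∈ range M, (cnt (fun j => A (s + (n + j))) G : ℝ) ≤
        (e + ε) * G * (M - cnt (fun n => ∀ j < G, ¬ A (s + n + j)) M) := by
      intro M
      induction M with
      | zero => simp
      | succ M ih =>
        rw [sum_range_succ, cnt_succ]
        split_ifs with h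
        · have : cnt (fun j => A (s + (M + j))) G = 0 := by
            unfold cnt
            rw [card_eq_zero, filter_eq_empty_iff]
            intro j hj
            simpa [add_assoc] using h j (mem_range.mp hj)
          rw [this]
          push_cast
          linarith
        · have := hup (s + M)
          simp only [add_assoc] at this
          push_cast
          linarith
    have h3 := h1.trans (h2 N)
    have hG0 : (0 : ℝ) < G := by exact_mod_cast hG
    have h4 : (e - 2 * ε) * N ≤ (e + ε) * (N - b) := by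
      have : (G : ℝ) * ((e - 2 * ε) * N) ≤ G * ((e + ε) * (N - b)) := by linarith
      exact le_of_mul_le_mul_left this hG0
    have hb0 : (0 : ℝ) ≤ b := Nat.cast_nonneg _
    have h5 : e * b ≤ e * (η * N) := by nlinarith
    exact le_of_mul_le_mul_left h5 he0

end Pool.Agent.MP_a8995d_an.K9
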